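import Mathlib
import Pool.Agent.U958.PF.Ana

set_option autoImplicit false

/-! # Analytic lemmas for the Poisson law (helper958) -/

open Filter Topology Finset

namespace Pool.Agent.U958.PL

/-- `exp (-x / (1 - η)) ≤ 1 - x` for `0 ≤ x ≤ η < 1` -/
lemma exp_low (x η : ℝ) (hx : 0 ≤ x) (hxη : x ≤ η) (hη : η < 1) : Real.exp (-(x / (1 - η))) ≤ 1 - x := by
  have h1 : 0 < 1 - x := by linarith
  have h2 : 0 < 1 - η := by linarith
  have h3 : 1 / (1 - x) ≤ Real.exp (x / (1 - x)) := by
    have := Real.add_one_le_exp (x / (1 - x))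
    refine le_trans (le_of_eq ?_) this
    field_simp
    ring
  have h4 : Real.exp (x / (1 - x)) ≤ Real.exp (x / (1 - η)) := by
    apply Real.exp_le_exp.2
    exact div_le_div_of_nonneg_left hx h2 (by linarith)
  rw [Real.exp_neg, inv_le_comm₀ (Real.exp_pos _) h1]
  rw [one_div] at h3
  exact h3.trans h4

/-- products with small factors -/
lemma prod_lim (J : ℕ → Finset ℕ) (lo : ℕ → ℕ) (hlo : Tendsto lo atTop atTop) (hJ : ∀ y, ∀ k ∈ J y, lo y ≤ k)
    (p : ℕ → ℝ) (hp : ∀ k, 0 ≤ p k) (hp0 : Tendsto p atTop (𝓝 0)) (lam : ℝ)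
    (hs : Tendsto (fun y => ∑ k ∈ J y, p k) atTop (𝓝 lam)) (w : ℝ) (hw0 : 0 < w) (hw1 : w < 1) :
    Tendsto (fun y => ∏ k ∈ J y, (1 - w * p k)) atTop (𝓝 (Real.exp (-(w * lam)))) := by
  have hsmall : ∀ η : ℝ, 0 < η → ∀ᶠ y in atTop, ∀ k ∈ J y, w * p k ≤ η := by
    intro η hη
    have h1 := hp0.eventually (gt_mem_nhds hη)
    obtain ⟨n0, hn0⟩ := eventually_atTop.1 h1
    filter_upwards [hlo.eventually_ge_atTop n0] with y hy k hk
    have h2 := hn0 k (hy.trans (hJ y k hk))
    have h3 := hp k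
    nlinarith
  rw [tendsto_order]
  constructor
  · intro a ha
    -- choose η
    have hc : Tendsto (fun η : ℝ => Real.exp (-(w * lam / (1 - η)))) (𝓝[>] 0) (𝓝 (Real.exp (-(w * lam)))) := by
      have h1 : ContinuousAt (fun η : ℝ => Real.exp (-(w * lam / (1 - η)))) 0 := by
        apply ContinuousAt.rexp
        apply ContinuousAt.neg
        apply ContinuousAt.div continuousAt_const (by fun_prop)
        norm_num
      have h2 := h1.tendsto
      simp only [sub_zero, div_one] at h2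
      exact h2.mono_left nhdsWithin_le_nhds
    have hIoo : ∀ᶠ η : ℝ in 𝓝[>] 0, η ∈ Set.Ioo (0 : ℝ) 1 := Ioo_mem_nhdsGT one_pos
    obtain ⟨η, h2, h3', h4⟩ := ((hc.eventually (lt_mem_nhds ha)).and hIoo).exists
    have h5 : Tendsto (fun y => Real.exp (-(w * (∑ k ∈ J y, p k) / (1 - η)))) atTop
        (𝓝 (Real.exp (-(w * lam / (1 - η))))) :=
      (Real.continuous_exp.tendsto _).comp ((hs.const_mul w).div_const (1 - η)).neg
    filter_upwards [h5.eventually (lt_mem_nhds h2), hsmall η h3'] with y hy hy2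
    refine lt_of_lt_of_le hy ?_
    rw [mul_sum, sum_div, ← sum_neg_distrib, Real.exp_sum]
    apply Finset.prod_le_prod (fun _ _ => (Real.exp_pos _).le)
    intro k hk
    exact exp_low _ _ (mul_nonneg hw0.le (hp k)) (hy2 k hk) h4
  · intro a ha
    have h5 : Tendsto (fun y => Real.exp (-(w * (∑ k ∈ J y, p k)))) atTop (𝓝 (Real.exp (-(w * lam)))) :=
      (Real.continuous_exp.tendsto _).comp (hs.const_mul w).neg
    filter_upwards [h5.eventually (gt_mem_nhds ha), hsmall 1 one_pos] with y hy hy2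
    refine lt_of_le_of_lt ?_ hy
    rw [mul_sum, ← sum_neg_distrib, Real.exp_sum]
    apply Finset.prod_le_prod
    · intro k hk
      linarith [hy2 k hk]
    · intro k _
      have := Real.add_one_le_exp (-(w * p k))
      linarith

/-- continuity of generating functions: bounded coefficients -/
lemma coeff_zero (c : ℕ → ℕ → ℝ) (B : ℝ) (hB : ∀ y k, |c y k| ≤ B)
    (h : ∀ z : ℝ, 0 < z → z < 1 → Tendsto (fun y => ∑' k, c y k * z ^ k) atTop (𝓝 0)) (k : ℕ) :
    Tendsto (fun y => c y k) atTop (𝓝 0) := by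
  have hsum : ∀ (c : ℕ → ℕ → ℝ) (_ : ∀ y k, |c y k| ≤ B) (z : ℝ), 0 < z → z < 1 → ∀ y,
      Summable (fun k => c y k * z ^ k) := by
    intro c hB z hz0 hz1 y
    refine Summable.of_norm_bounded (g := fun k => B * z ^ k)
      ((summable_geometric_of_lt_one hz0.le hz1).mul_left B) fun k => ?_
    rw [Real.norm_eq_abs, abs_mul, abs_of_pos (pow_pos hz0 k)]
    exact mul_le_mul_of_nonneg_right (hB y k) (pow_pos hz0 k).le
  have hB0 : 0 ≤ B := (abs_nonneg _).trans (hB 0 0)
  -- the zeroth coefficient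
  have hzero : ∀ (c : ℕ → ℕ → ℝ) (_ : ∀ y k, |c y k| ≤ B)
      (_ : ∀ z : ℝ, 0 < z → z < 1 → Tendsto (fun y => ∑' k, c y k * z ^ k) atTop (𝓝 0)),
      Tendsto (fun y => c y 0) atTop (𝓝 0) := by
    intro c hB h
    rw [Metric.tendsto_atTop]
    intro ε hε
    obtain ⟨z, hz0, hz1, hz2⟩ : ∃ z : ℝ, 0 < z ∧ z ≤ 1 / 2 ∧ 2 * B * z < ε / 2 := by
      refine ⟨min (1 / 2) (ε / (8 * (B + 1))), by positivity, min_le_left _ _, ?_⟩
      have h1 : min (1 / 2) (ε / (8 * (B + 1))) ≤ ε / (8 * (B + 1)) := min_le_right _ _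
      have h2 : 2 * B * (ε / (8 * (B + 1))) ≤ ε / 4 := by
        rw [← mul_div_assoc, div_le_div_iff₀ (by positivity) (by norm_num)]
        nlinarith
      have h3 : 2 * B * min (1 / 2) (ε / (8 * (B + 1))) ≤ 2 * B * (ε / (8 * (B + 1))) :=
        mul_le_mul_of_nonneg_left h1 (by positivity)
      linarith
    obtain ⟨n, hn⟩ := (Metric.tendsto_atTop.1 (h z hz0 (by linarith))) (ε / 2) (by linarith)
    refine ⟨n, fun y hy => ?_⟩
    have h1 := hn y hy
    rw [Real.dist_eq, sub_zero] at h1 ⊢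
    have hs := hsum c hB z hz0 (by linarith) y
    have h2 := hs.tsum_eq_zero_add
    simp only [pow_zero, mul_one] at h2
    have h3 : |∑' k, c y (k + 1) * z ^ (k + 1)| ≤ 2 * B * z := by
      have h4 : Summable (fun k => B * z * z ^ k) :=
        (summable_geometric_of_lt_one hz0.le (by linarith)).mul_left (B * z)
      have h5 := tsum_of_norm_bounded (f := fun k => c y (k + 1) * z ^ (k + 1)) h4.hasSum (fun k => by
        rw [Real.norm_eq_abs, abs_mul, abs_of_pos (pow_pos hz0 _), pow_succ']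
        calc |c y (k + 1)| * (z * z ^ k) ≤ B * (z * z ^ k) :=
              mul_le_mul_of_nonneg_right (hB y _) (by positivity)
          _ = B * z * z ^ k := by ring)
      rw [Real.norm_eq_abs, tsum_mul_left, tsum_geometric_of_lt_one hz0.le (by linarith)] at h5
      refine h5.trans ?_
      have h6 : (1 - z)⁻¹ ≤ 2 := by
        rw [inv_le_comm₀ (by linarith) (by norm_num)]
        linarith
      have h7 : 0 ≤ B * z := by positivity
      nlinarith
    have h4 : c y 0 = (∑' k, c y k * z ^ k) - ∑' k, c y (k + 1) * z ^ (k + 1) := by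
      rw [h2]; ring
    rw [h4]
    calc |(∑' k, c y k * z ^ k) - ∑' k, c y (k + 1) * z ^ (k + 1)|
        ≤ |∑' k, c y k * z ^ k| + |∑' k, c y (k + 1) * z ^ (k + 1)| := abs_sub _ _
      _ < ε := by linarith
  induction k generalizing c with
  | zero => exact hzero c hB h
  | succ k ih =>
    refine ih (fun y k => c y (k + 1)) (fun y k => hB y (k + 1)) fun z hz0 hz1 => ?_
    have h1 := ((h z hz0 hz1).sub (hzero c hB h)).div_const z
    rw [sub_zero, zero_div] at h1
    refine h1.congr fun y => ?_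
    have h2 := (hsum c hB z hz0 hz1 y).tsum_eq_zero_add
    simp only [pow_zero, mul_one] at h2
    rw [h2, add_sub_cancel_left]
    rw [← tsum_div_const]
    refine tsum_congr fun k => ?_
    rw [pow_succ]
    field_simp

/-- window sums -/
lemma win (q g : ℕ → ℝ) (T : ℕ) (hT : 0 < T) (hper : ∀ n, g (n + T) = g n) (K0 : ℝ)
    (hq : Tendsto (fun m : ℕ => q m * ((m : ℝ) + 1) - g m * K0) atTop (𝓝 0)) (a b : ℕ → ℕ)
    (hab : ∀ y, a y ≤ b y) (ha : Tendsto a atTop atTop) (l : ℝ)
    (hl : Tendsto (fun y => Real.log (b y) - Real.log (a y)) atTop (𝓝 l)) :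
    Tendsto (fun y => ∑ m ∈ Ico (a y) (b y), q m) atTop (𝓝 (K0 * ((∑ t ∈ range T, g t) / T) * l)) := by
  have hb : Tendsto b atTop atTop := tendsto_atTop_mono hab ha
  have hT' : (0 : ℝ) < T := by exact_mod_cast hT
  -- harmonic windows
  have hH : Tendsto (fun y => ∑ m ∈ Ico (a y) (b y), 1 / ((m : ℝ) + 1)) atTop (𝓝 l) := by
    have h1 := Real.tendsto_harmonic_sub_log
    have h2 := ((h1.comp hb).sub (h1.comp ha)).add hl
    rw [sub_self, zero_add] at h2
    refine h2.congr fun y => ?_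
    have h5 : ∀ x : ℕ, (harmonic x : ℝ) = ∑ n ∈ range x, 1 / ((n : ℝ) + 1) := by
      intro x
      unfold harmonic
      push_cast
      exact sum_congr rfl fun i _ => by rw [one_div]
    simp only [Function.comp, h5]
    rw [sum_Ico_eq_sub _ (hab y)]
    ring
  set m0 : ℝ := (∑ t ∈ range T, g t) / T with hm0
  -- the mean zero part
  have hZ : Tendsto (fun y => ∑ m ∈ Ico (a y) (b y), (g m - m0) / ((m : ℝ) + 1)) atTop (𝓝 0) := by
    set h : ℕ → ℝ := fun n => g n - m0 with hh
    have h0 : ∑ t ∈ range T, h t = 0 := by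
      rw [hh, sum_sub_distrib, sum_const, card_range, nsmul_eq_mul, hm0]
      field_simp
      ring
    have hS : ∀ x, ∑ n ∈ range (x + T), h n = ∑ n ∈ range x, h n := by
      intro x
      induction x with
      | zero => simpa using h0
      | succ x ih =>
        rw [show x + 1 + T = (x + T) + 1 by ring, sum_range_succ, ih, sum_range_succ]
        simp only [hh, hper]
    have hSm : ∀ x, ∑ n ∈ range x, h n = ∑ n ∈ range (x % T), h n := by
      intro x
      have hp : Function.Periodic (fun x => ∑ n ∈ range x, h n) T := hS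
      exact (hp.map_mod_nat x).symm
    set bb : ℝ := ∑ t ∈ range T, |h t| with hbb
    have hbd : ∀ x, ‖∑ n ∈ range x, h n‖ ≤ bb := by
      intro x
      rw [hSm, Real.norm_eq_abs]
      refine (abs_sum_le_sum_abs _ _).trans ?_
      exact sum_le_sum_of_subset_of_nonneg (range_mono (Nat.mod_lt x hT).le) fun _ _ _ => abs_nonneg _
    have ha' : Antitone (fun n : ℕ => 1 / ((n : ℝ) + 1)) := by
      intro m n hmn
      have : (m : ℝ) ≤ n := by exact_mod_cast hmn
      show 1 / ((n : ℝ) + 1) ≤ 1 / ((m : ℝ) + 1)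
      gcongr
    have hc := ha'.cauchySeq_series_mul_of_tendsto_zero_of_bounded tendsto_one_div_add_atTop_nhds_zero_nat hbd
    obtain ⟨l', hl'⟩ := cauchySeq_tendsto_of_complete hc
    have h2 := (hl'.comp hb).sub (hl'.comp ha)
    rw [sub_self] at h2
    refine h2.congr fun y => ?_
    simp only [Function.comp]
    rw [← sum_Ico_eq_sub _ (hab y)]
    refine sum_congr rfl fun i _ => ?_
    rw [smul_eq_mul]
    ring
  -- the error
  have hE : Tendsto (fun y => ∑ m ∈ Ico (a y) (b y), (q m * ((m : ℝ) + 1) - g m * K0) / ((m : ℝ) + 1))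
      atTop (𝓝 0) := by
    rw [Metric.tendsto_atTop]
    intro ε hε
    have hl0 : 0 ≤ l := ge_of_tendsto' hH fun y => sum_nonneg fun i _ => by positivity
    obtain ⟨n1, hn1⟩ := (Metric.tendsto_atTop.1 hq) (ε / (2 * (l + 1))) (by positivity)
    have h1 := (ha.eventually_ge_atTop n1).and (hH.eventually (gt_mem_nhds (show l < l + 1 by linarith)))
    obtain ⟨n2, hn2⟩ := eventually_atTop.1 h1
    refine ⟨n2, fun y hy => ?_⟩
    obtain ⟨h2, h3⟩ := hn2 y hy
    rw [Real.dist_eq, sub_zero]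
    calc |∑ m ∈ Ico (a y) (b y), (q m * ((m : ℝ) + 1) - g m * K0) / ((m : ℝ) + 1)|
        ≤ ∑ m ∈ Ico (a y) (b y), |(q m * ((m : ℝ) + 1) - g m * K0) / ((m : ℝ) + 1)| := abs_sum_le_sum_abs _ _
      _ ≤ ∑ m ∈ Ico (a y) (b y), ε / (2 * (l + 1)) * (1 / ((m : ℝ) + 1)) := by
          apply sum_le_sum
          intro m hm
          have h4 := hn1 m (h2.trans (mem_Ico.1 hm).1)
          rw [Real.dist_eq, sub_zero] at h4
          have h5 : (0 : ℝ) < (m : ℝ) + 1 := by positivity
          rw [abs_div, abs_of_pos h5, mul_one_div]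
          exact div_le_div_of_nonneg_right h4.le h5.le
      _ = ε / (2 * (l + 1)) * ∑ m ∈ Ico (a y) (b y), 1 / ((m : ℝ) + 1) := by rw [mul_sum]
      _ ≤ ε / (2 * (l + 1)) * (l + 1) := mul_le_mul_of_nonneg_left h3.le (by positivity)
      _ = ε / 2 := by field_simp
      _ < ε := by linarith
  have h9 := (hE.add (hZ.const_mul K0)).add (hH.const_mul (K0 * m0))
  rw [mul_zero, add_zero, zero_add] at h9
  refine h9.congr fun y => ?_
  rw [mul_sum, mul_sum, ← sum_add_distrib, ← sum_add_distrib]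
  refine sum_congr rfl fun m _ => ?_
  have : (0 : ℝ) < (m : ℝ) + 1 := by positivity
  field_simp
  ring

end Pool.Agent.U958.PL
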