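import Mathlib
import Pool.Agent.U958.SM.Exp

set_option autoImplicit false

/-! # The Poisson martingale in sequential random models (helper958) -/

open MeasureTheory Filter Topology

namespace Pool.Agent.U958.PL

open Pool.Agent.U958.SM

variable {Ω : Type} {m0 : MeasurableSpace Ω} {μ : Measure Ω} [IsProbabilityMeasure μ]
  {ℱ : Filtration ℕ m0} {A : ℕ → Set Ω}

/-- indicator of the next step -/
noncomputable def aa (A : ℕ → Set Ω) (k : ℕ) (ω : Ω) : ℝ := (A (k + 1)).indicator (fun _ => (1 : ℝ)) ω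

/-- the truncation -/
def tr (μ : Measure Ω) (ℱ : Filtration ℕ m0) (A : ℕ → Set Ω) (J : Finset ℕ) (K : ℝ) (k : ℕ) : Set Ω :=
  {ω | ∑ j ∈ J.filter (fun j => j ≤ k), dc μ ℱ A j ω ≤ K}

/-- one step of the martingale minus one -/
noncomputable def st (μ : Measure Ω) (ℱ : Filtration ℕ m0) (A : ℕ → Set Ω) (J : Finset ℕ) (K w : ℝ) (k : ℕ)
    (ω : Ω) : ℝ :=
  (tr μ ℱ A J K k).indicator (fun _ => (1 : ℝ)) ω * (w / (1 - w * dc μ ℱ A k ω))

/-- the martingale -/
noncomputable def Z (μ : Measure Ω) (ℱ : Filtration ℕ m0) (A : ℕ → Set Ω) (J : Finset ℕ) (K w : ℝ) (n : ℕ)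
    (ω : Ω) : ℝ :=
  ∏ k ∈ J.filter (fun k => k < n), (1 + st μ ℱ A J K w k ω * (dc μ ℱ A k ω - aa A k ω))

omit [IsProbabilityMeasure μ] in
lemma aa01 (k : ℕ) (ω : Ω) : aa A k ω = 0 ∨ aa A k ω = 1 := ind01 _ _

omit [IsProbabilityMeasure μ] in
lemma den_pos (w : ℝ) (hw0 : 0 < w) (_hw1 : w < 1) (k : ℕ) (ω : Ω) : 1 - w ≤ 1 - w * dc μ ℱ A k ω := by
  have h1 := dc_le (μ := μ) (ℱ := ℱ) (A := A) k ω
  nlinarith

omit [IsProbabilityMeasure μ] in
/-- the factor -/
lemma fac_eq (J : Finset ℕ) (K w : ℝ) (hw0 : 0 < w) (hw1 : w < 1) (k : ℕ) (ω : Ω) (h : ω ∈ tr μ ℱ A J K k) :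
    1 + st μ ℱ A J K w k ω * (dc μ ℱ A k ω - aa A k ω) = (1 - w * aa A k ω) / (1 - w * dc μ ℱ A k ω) := by
  have h1 := den_pos (μ := μ) (ℱ := ℱ) (A := A) w hw0 hw1 k ω
  have h2 : 0 < 1 - w * dc μ ℱ A k ω := by linarith
  unfold st
  rw [Set.indicator_of_mem h, one_mul]
  field_simp
  ring

omit [IsProbabilityMeasure μ] in
lemma fac_eq' (J : Finset ℕ) (K w : ℝ) (k : ℕ) (ω : Ω) (h : ω ∉ tr μ ℱ A J K k) :
    1 + st μ ℱ A J K w k ω * (dc μ ℱ A k ω - aa A k ω) = 1 := by
  unfold st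
  rw [Set.indicator_of_notMem h, zero_mul, zero_mul, add_zero]

omit [IsProbabilityMeasure μ] in
lemma fac_nonneg (J : Finset ℕ) (K w : ℝ) (hw0 : 0 < w) (hw1 : w < 1) (k : ℕ) (ω : Ω) :
    0 ≤ 1 + st μ ℱ A J K w k ω * (dc μ ℱ A k ω - aa A k ω) := by
  by_cases h : ω ∈ tr μ ℱ A J K k
  · rw [fac_eq J K w hw0 hw1 k ω h]
    have h1 := den_pos (μ := μ) (ℱ := ℱ) (A := A) w hw0 hw1 k ω
    apply div_nonneg _ (by linarith)
    rcases aa01 (A := A) k ω with h2 | h2 <;> rw [h2] <;> linarith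
  · rw [fac_eq' J K w k ω h]
    exact zero_le_one

omit [IsProbabilityMeasure μ] in
lemma Z_nonneg (J : Finset ℕ) (K w : ℝ) (hw0 : 0 < w) (hw1 : w < 1) (n : ℕ) (ω : Ω) :
    0 ≤ Z μ ℱ A J K w n ω := Finset.prod_nonneg fun k _ => fac_nonneg J K w hw0 hw1 k ω

omit [IsProbabilityMeasure μ] in
/-- the uniform bound -/
lemma Z_le (J : Finset ℕ) (K w : ℝ) (hK : 0 ≤ K) (hw0 : 0 < w) (hw1 : w < 1) (n : ℕ) (ω : Ω) :
    Z μ ℱ A J K w n ω ≤ Real.exp (w / (1 - w) * K) := by
  classical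
  have hw : 0 < 1 - w := by linarith
  set J' := (J.filter (fun k => k < n)).filter (fun k => ω ∈ tr μ ℱ A J K k) with hJ'
  have h1 : Z μ ℱ A J K w n ω ≤ ∏ k ∈ J.filter (fun k => k < n),
      Real.exp (if ω ∈ tr μ ℱ A J K k then w / (1 - w) * dc μ ℱ A k ω else 0) := by
    apply Finset.prod_le_prod (fun k _ => fac_nonneg J K w hw0 hw1 k ω)
    intro k _
    have hd0 := dc_nonneg (μ := μ) (ℱ := ℱ) (A := A) k ω
    have hd1 := dc_le (μ := μ) (ℱ := ℱ) (A := A) k ω
    have h2 := den_pos (μ := μ) (ℱ := ℱ) (A := A) w hw0 hw1 k ω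
    by_cases h : ω ∈ tr μ ℱ A J K k
    · rw [fac_eq J K w hw0 hw1 k ω h, if_pos h]
      have h3 : (1 - w * aa A k ω) / (1 - w * dc μ ℱ A k ω) ≤ 1 / (1 - w * dc μ ℱ A k ω) := by
        apply div_le_div_of_nonneg_right _ (by linarith)
        rcases aa01 (A := A) k ω with h4 | h4 <;> rw [h4] <;> linarith
      refine h3.trans ?_
      have h4 : 1 / (1 - w * dc μ ℱ A k ω) ≤ w / (1 - w) * dc μ ℱ A k ω + 1 := by
        rw [div_le_iff₀ (by linarith)]
        have e : (w / (1 - w) * dc μ ℱ A k ω + 1) * (1 - w * dc μ ℱ A k ω) - 1 =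
            w ^ 2 / (1 - w) * dc μ ℱ A k ω * (1 - dc μ ℱ A k ω) := by
          field_simp
          ring
        have h5 : 0 ≤ w ^ 2 / (1 - w) * dc μ ℱ A k ω * (1 - dc μ ℱ A k ω) :=
          mul_nonneg (by positivity) (by linarith)
        linarith
      exact h4.trans (Real.add_one_le_exp _)
    · rw [fac_eq' J K w k ω h, if_neg h, Real.exp_zero]
  refine h1.trans ?_
  rw [← Real.exp_sum]
  apply Real.exp_le_exp.2
  rw [← Finset.sum_filter, ← hJ', ← Finset.mul_sum]
  apply mul_le_mul_of_nonneg_left _ (by positivity)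
  by_cases hne : J'.Nonempty
  · have h2 : J'.max' hne ∈ J' := J'.max'_mem hne
    have h3 : ω ∈ tr μ ℱ A J K (J'.max' hne) := (Finset.mem_filter.1 h2).2
    refine le_trans ?_ h3
    apply Finset.sum_le_sum_of_subset_of_nonneg
    · intro k hk
      have h4 := J'.le_max' k hk
      rw [hJ', Finset.mem_filter, Finset.mem_filter] at hk
      exact Finset.mem_filter.2 ⟨hk.1.1, h4⟩
    · intro k _ _
      exact dc_nonneg k ω
  · rw [Finset.not_nonempty_iff_eq_empty] at hne
    rw [hne, Finset.sum_empty]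
    exact hK

lemma aa_meas (hA : ∀ n, MeasurableSet[ℱ n] (A n)) (k n : ℕ) (h : k < n) : Measurable[ℱ n] (aa A k) :=
  (@measurable_const _ _ _ (ℱ n) (1 : ℝ)).indicator (ℱ.mono h _ (hA (k + 1)))

lemma tr_meas (J : Finset ℕ) (K : ℝ) (k n : ℕ) (h : k ≤ n) : MeasurableSet[ℱ n] (tr μ ℱ A J K k) := by
  apply measurableSet_le (mδ := ℱ n) _ (@measurable_const _ _ _ (ℱ n) K)
  apply Finset.measurable_fun_sum (m := ℱ n)
  intro j hj
  exact ((dc_meas (μ := μ) (ℱ := ℱ) (A := A) j).mono (ℱ.mono ((Finset.mem_filter.1 hj).2.trans h))).measurable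

lemma st_meas (J : Finset ℕ) (K w : ℝ) (k n : ℕ) (h : k ≤ n) : Measurable[ℱ n] (st μ ℱ A J K w k) := by
  have h2 : Measurable[ℱ n] (dc μ ℱ A k) :=
      ((dc_meas (μ := μ) (ℱ := ℱ) (A := A) k).mono (ℱ.mono h)).measurable
  exact ((@measurable_const _ _ _ (ℱ n) (1 : ℝ)).indicator (tr_meas J K k n h)).mul
    ((@measurable_const _ _ _ (ℱ n) w).div ((@measurable_const _ _ _ (ℱ n) (1 : ℝ)).sub (h2.const_mul w)))

lemma Z_meas (hA : ∀ n, MeasurableSet[ℱ n] (A n)) (J : Finset ℕ) (K w : ℝ) (n : ℕ) :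
    Measurable[ℱ n] (Z μ ℱ A J K w n) := by
  apply Finset.measurable_fun_prod (m := ℱ n)
  intro k hk
  have hk' : k < n := (Finset.mem_filter.1 hk).2
  have h2 : Measurable[ℱ n] (dc μ ℱ A k) :=
      ((dc_meas (μ := μ) (ℱ := ℱ) (A := A) k).mono (ℱ.mono hk'.le)).measurable
  exact (@measurable_const _ _ _ (ℱ n) (1 : ℝ)).add ((st_meas J K w k n hk'.le).mul (h2.sub (aa_meas hA k n hk')))

/-- the integral over an event of the past -/
lemma Z_int (hA : ∀ n, MeasurableSet[ℱ n] (A n)) (J : Finset ℕ) (K w : ℝ) (hK : 0 ≤ K) (hw0 : 0 < w)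
    (hw1 : w < 1) (lo : ℕ) (hJ : ∀ k ∈ J, lo ≤ k) (G : Set Ω) (hG : MeasurableSet[ℱ lo] G) (n : ℕ) :
    ∫ ω, G.indicator (fun _ => (1 : ℝ)) ω * Z μ ℱ A J K w n ω ∂μ = μ.real G := by
  induction n with
  | zero =>
    have : ∀ ω, Z μ ℱ A J K w 0 ω = 1 := by
      intro ω
      unfold Z
      rw [Finset.filter_false_of_mem (by simp), Finset.prod_empty]
    simp only [this, mul_one]
    rw [integral_indicator_const _ (ℱ.le lo _ hG), smul_eq_mul, mul_one]
  | succ n ih =>
    by_cases hn : n ∈ J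
    · have e0 : J.filter (fun k => k < n + 1) = insert n (J.filter (fun k => k < n)) := by
        ext k
        simp only [Finset.mem_filter, Finset.mem_insert]
        constructor
        · rintro ⟨h1, h2⟩
          rcases Nat.lt_succ_iff_lt_or_eq.1 h2 with h3 | h3
          · exact Or.inr ⟨h1, h3⟩
          · exact Or.inl h3
        · rintro (h1 | ⟨h1, h2⟩)
          · subst h1
            exact ⟨hn, Nat.lt_succ_self _⟩
          · exact ⟨h1, by omega⟩
      have e1 : ∀ ω, Z μ ℱ A J K w (n + 1) ω = Z μ ℱ A J K w n ω *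
          (1 + st μ ℱ A J K w n ω * (dc μ ℱ A n ω - aa A n ω)) := by
        intro ω
        unfold Z
        rw [e0, Finset.prod_insert (by simp), mul_comm]
      set H : Ω → ℝ := fun ω => G.indicator (fun _ => (1 : ℝ)) ω * Z μ ℱ A J K w n ω * st μ ℱ A J K w n ω with hH
      have hGm : Measurable[ℱ n] (G.indicator (fun _ => (1 : ℝ))) :=
        (@measurable_const _ _ _ (ℱ n) (1 : ℝ)).indicator (ℱ.mono (hJ n hn) _ hG)
      have hHm : Measurable[ℱ n] H := (hGm.mul (Z_meas hA J K w n)).mul (st_meas J K w n n le_rfl)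
      set C := Real.exp (w / (1 - w) * K) * (w / (1 - w)) with hC
      have hw : 0 < 1 - w := by linarith
      have hHb : ∀ ω, |H ω| ≤ C := by
        intro ω
        have h1 := Z_nonneg (μ := μ) (ℱ := ℱ) (A := A) J K w hw0 hw1 n ω
        have h2 := Z_le (μ := μ) (ℱ := ℱ) (A := A) J K w hK hw0 hw1 n ω
        have h3 : |G.indicator (fun _ => (1 : ℝ)) ω| ≤ 1 := by
          rcases ind01 G ω with h | h <;> rw [h] <;> simp
        have h4 : |st μ ℱ A J K w n ω| ≤ w / (1 - w) := by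
          unfold st
          have h5 := den_pos (μ := μ) (ℱ := ℱ) (A := A) w hw0 hw1 n ω
          have h6 : |w / (1 - w * dc μ ℱ A n ω)| ≤ w / (1 - w) := by
            rw [abs_of_nonneg (div_nonneg hw0.le (by linarith))]
            exact div_le_div_of_nonneg_left hw0.le hw h5
          rcases ind01 (tr μ ℱ A J K n) ω with h | h <;> rw [h]
          · rw [zero_mul, abs_zero]; positivity
          · rw [one_mul]; exact h6
        rw [hH]
        simp only
        rw [abs_mul, abs_mul, abs_of_nonneg h1]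
        calc |G.indicator (fun _ => (1 : ℝ)) ω| * Z μ ℱ A J K w n ω * |st μ ℱ A J K w n ω|
            ≤ 1 * Real.exp (w / (1 - w) * K) * (w / (1 - w)) := by gcongr
          _ = C := by rw [hC, one_mul]
      have i1 : Integrable (fun ω => G.indicator (fun _ => (1 : ℝ)) ω * Z μ ℱ A J K w n ω) μ := by
        refine Integrable.of_bound (C := Real.exp (w / (1 - w) * K))
          (((hGm.mul (Z_meas hA J K w n)).stronglyMeasurable).mono (ℱ.le n)).aestronglyMeasurable
          (Eventually.of_forall fun ω => ?_)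
        have h1 := Z_nonneg (μ := μ) (ℱ := ℱ) (A := A) J K w hw0 hw1 n ω
        have h2 := Z_le (μ := μ) (ℱ := ℱ) (A := A) J K w hK hw0 hw1 n ω
        rw [Real.norm_eq_abs, abs_mul, abs_of_nonneg h1]
        rcases ind01 G ω with h | h <;> rw [h]
        · rw [abs_zero, zero_mul]; positivity
        · rw [abs_one, one_mul]; exact h2
      have i2 : Integrable (fun ω => H ω * dc μ ℱ A n ω) μ := by
        refine Integrable.of_bound (C := C)
          (((hHm.mul (dc_meas (μ := μ) (ℱ := ℱ) (A := A) n).measurable).stronglyMeasurable).mono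
            (ℱ.le n)).aestronglyMeasurable (Eventually.of_forall fun ω => ?_)
        rw [Real.norm_eq_abs]
        show |H ω * dc μ ℱ A n ω| ≤ _
        rw [abs_mul]
        refine (mul_le_of_le_one_right (abs_nonneg _) ?_).trans (hHb ω)
        rw [abs_of_nonneg (dc_nonneg n ω)]
        exact dc_le n ω
      have i3 : Integrable (fun ω => H ω * (A (n + 1)).indicator (fun _ => (1 : ℝ)) ω) μ := by
        have e : (fun ω => H ω * (A (n + 1)).indicator (fun _ => (1 : ℝ)) ω) = (A (n + 1)).indicator H := by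
          funext ω
          by_cases h : ω ∈ A (n + 1)
          · rw [Set.indicator_of_mem h, Set.indicator_of_mem h, mul_one]
          · rw [Set.indicator_of_notMem h, Set.indicator_of_notMem h, mul_zero]
        rw [e]
        refine Integrable.indicator ?_ (ℱ.le (n + 1) _ (hA (n + 1)))
        exact Integrable.of_bound (C := C) ((hHm.stronglyMeasurable).mono (ℱ.le n)).aestronglyMeasurable
          (Eventually.of_forall fun ω => by rw [Real.norm_eq_abs]; exact hHb ω)
      have i4 : Integrable (fun ω => H ω * dc μ ℱ A n ω - H ω * (A (n + 1)).indicator (fun _ => (1 : ℝ)) ω) μ :=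
        i2.sub i3
      calc ∫ ω, G.indicator (fun _ => (1 : ℝ)) ω * Z μ ℱ A J K w (n + 1) ω ∂μ
          = ∫ ω, (G.indicator (fun _ => (1 : ℝ)) ω * Z μ ℱ A J K w n ω +
              (H ω * dc μ ℱ A n ω - H ω * (A (n + 1)).indicator (fun _ => (1 : ℝ)) ω)) ∂μ := by
            refine integral_congr_ae (Eventually.of_forall fun ω => ?_)
            simp only [e1, hH, aa]
            ring
        _ = ∫ ω, G.indicator (fun _ => (1 : ℝ)) ω * Z μ ℱ A J K w n ω ∂μ +
              (∫ ω, H ω * dc μ ℱ A n ω ∂μ - ∫ ω, H ω * (A (n + 1)).indicator (fun _ => (1 : ℝ)) ω ∂μ) := by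
            rw [integral_add i1 i4, integral_sub i2 i3]
        _ = μ.real G := by
            rw [int_ind hA n H hHm.stronglyMeasurable C hHb, sub_self, add_zero, ih]
    · have e0 : J.filter (fun k => k < n + 1) = J.filter (fun k => k < n) := by
        ext k
        simp only [Finset.mem_filter]
        constructor
        · rintro ⟨h1, h2⟩
          refine ⟨h1, ?_⟩
          rcases Nat.lt_succ_iff_lt_or_eq.1 h2 with h3 | h3
          · exact h3
          · exact absurd (h3 ▸ h1) hn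
        · rintro ⟨h1, h2⟩
          exact ⟨h1, by omega⟩
      have e1 : ∀ ω, Z μ ℱ A J K w (n + 1) ω = Z μ ℱ A J K w n ω := by
        intro ω
        unfold Z
        rw [e0]
      simp only [e1]
      exact ih

end Pool.Agent.U958.PL
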