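import Mathlib
import Pool.Agent.U958.PL.Ana
import Pool.Agent.U958.PL.Poi

set_option autoImplicit false

/-! # The mixing Poisson law in sequential random models (helper958) -/

open MeasureTheory Filter Topology

namespace Pool.Agent.U958.PL

open Pool.Agent.U958.SM

variable {Ω : Type} {m0 : MeasurableSpace Ω} {μ : Measure Ω} [IsProbabilityMeasure μ]
  {ℱ : Filtration ℕ m0} {A : ℕ → Set Ω}

open Classical in
/-- the count -/
noncomputable def cnt (A : ℕ → Set Ω) (J : Finset ℕ) (ω : Ω) : ℕ := (J.filter (fun k => ω ∈ A (k + 1))).card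

omit m0 in
lemma pow_cnt (z : ℝ) (J : Finset ℕ) (ω : Ω) : z ^ (cnt A J ω) = ∏ k ∈ J, (1 - (1 - z) * aa A k ω) := by
  classical
  have h1 : ∀ k ∈ J, (1 - (1 - z) * aa A k ω) = if ω ∈ A (k + 1) then z else 1 := by
    intro k _
    unfold aa
    by_cases h : ω ∈ A (k + 1)
    · rw [Set.indicator_of_mem h, if_pos h]; ring
    · rw [Set.indicator_of_notMem h, if_neg h]; ring
  rw [Finset.prod_congr rfl h1, Finset.prod_ite, Finset.prod_const, Finset.prod_const_one, mul_one]
  unfold cnt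
  congr!

omit m0 in
lemma cnt_real (J : Finset ℕ) (ω : Ω) : (cnt A J ω : ℝ) = ∑ k ∈ J, aa A k ω := by
  classical
  have h1 : ∀ k ∈ J, aa A k ω = if ω ∈ A (k + 1) then (1 : ℝ) else 0 := by
    intro k _
    unfold aa
    by_cases h : ω ∈ A (k + 1)
    · rw [Set.indicator_of_mem h, if_pos h]
    · rw [Set.indicator_of_notMem h, if_neg h]
  rw [Finset.sum_congr rfl h1, Finset.sum_boole]
  unfold cnt
  congr!

lemma cnt_meas (hA : ∀ n, MeasurableSet[ℱ n] (A n)) (J : Finset ℕ) (n : ℕ) (hn : ∀ k ∈ J, k < n) (k : ℕ) :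
    MeasurableSet[ℱ n] {ω | cnt A J ω = k} := by
  have e : {ω | cnt A J ω = k} = {ω | ∑ j ∈ J, aa A j ω = (k : ℝ)} := by
    ext ω
    simp only [Set.mem_ofPred_eq]
    rw [← cnt_real]
    exact_mod_cast Iff.rfl
  rw [e]
  apply measurableSet_eq_fun (m := ℱ n) _ (@measurable_const _ _ _ (ℱ n) (k : ℝ))
  apply Finset.measurable_fun_sum (m := ℱ n)
  intro j hj
  exact aa_meas hA j n (hn j hj)

/-- the end of a window -/
def en (J : Finset ℕ) : ℕ := J.sup id + 1

lemma lt_en (J : Finset ℕ) (k : ℕ) (hk : k ∈ J) : k < en J := Nat.lt_succ_of_le (Finset.le_sup (f := id) hk)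

omit [IsProbabilityMeasure μ] in
lemma Z_end (J : Finset ℕ) (K z : ℝ) (hz0 : 0 < z) (hz1 : z < 1) (ω : Ω)
    (h : ∑ k ∈ J, dc μ ℱ A k ω ≤ K) :
    Z μ ℱ A J K (1 - z) (en J) ω = z ^ (cnt A J ω) / ∏ k ∈ J, (1 - (1 - z) * dc μ ℱ A k ω) := by
  have h1 : ∀ k, ω ∈ tr μ ℱ A J K k := by
    intro k
    refine le_trans ?_ h
    exact Finset.sum_le_sum_of_subset_of_nonneg (Finset.filter_subset _ _) fun i _ _ => dc_nonneg i ω
  unfold Z
  rw [Finset.filter_true_of_mem (lt_en J), pow_cnt, ← Finset.prod_div_distrib]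
  refine Finset.prod_congr rfl fun k _ => ?_
  exact fac_eq J K (1 - z) (by linarith) (by linarith) k ω (h1 k)

/-- the error tends to zero -/
lemma err (hA : ∀ n, MeasurableSet[ℱ n] (A n)) (J : ℕ → Finset ℕ) (lo : ℕ → ℕ) (hlo : Tendsto lo atTop atTop)
    (hJ : ∀ y, ∀ k ∈ J y, lo y ≤ k) (lam : ℝ) (hlam : 0 ≤ lam)
    (h0 : ∀ᵐ ω ∂μ, Tendsto (fun n => dc μ ℱ A n ω) atTop (𝓝 0))
    (hs : ∀ᵐ ω ∂μ, Tendsto (fun y => ∑ k ∈ J y, dc μ ℱ A k ω) atTop (𝓝 lam)) (z : ℝ) (hz0 : 0 < z) (hz1 : z < 1) :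
    Tendsto (fun y => ∫ ω, |z ^ (cnt A (J y) ω) - Real.exp (-((1 - z) * lam)) *
      Z μ ℱ A (J y) (lam + 1) (1 - z) (en (J y)) ω| ∂μ) atTop (𝓝 0) := by
  set E := Real.exp (-((1 - z) * lam)) with hE
  have hE0 : 0 < E := Real.exp_pos _
  set B := Real.exp ((1 - z) / (1 - (1 - z)) * (lam + 1)) with hB
  have key := tendsto_integral_of_dominated_convergence (μ := μ)
    (F := fun y ω => |z ^ (cnt A (J y) ω) - E * Z μ ℱ A (J y) (lam + 1) (1 - z) (en (J y)) ω|)
    (f := fun _ => (0 : ℝ)) (bound := fun _ => 1 + E * B) ?_ (integrable_const _) ?_ ?_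
  · simpa using key
  · intro y
    have h1 : Measurable (fun ω => z ^ (cnt A (J y) ω)) := by
      have e : (fun ω => z ^ (cnt A (J y) ω)) = fun ω => ∏ k ∈ J y, (1 - (1 - z) * aa A k ω) := by
        funext ω
        exact pow_cnt z (J y) ω
      rw [e]
      apply Finset.measurable_fun_prod
      intro k _
      exact (((aa_meas hA k (k + 1) (Nat.lt_succ_self k)).mono (ℱ.le _) le_rfl).const_mul _).const_sub _
    have h2 : Measurable (Z μ ℱ A (J y) (lam + 1) (1 - z) (en (J y))) :=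
      (Z_meas hA (J y) (lam + 1) (1 - z) (en (J y))).mono (ℱ.le _) le_rfl
    exact (h1.sub (h2.const_mul E)).abs.aestronglyMeasurable
  · intro y
    refine Eventually.of_forall fun ω => ?_
    rw [Real.norm_eq_abs, abs_abs]
    have h1 := Z_nonneg (μ := μ) (ℱ := ℱ) (A := A) (J y) (lam + 1) (1 - z) (by linarith) (by linarith) (en (J y)) ω
    have h2 := Z_le (μ := μ) (ℱ := ℱ) (A := A) (J y) (lam + 1) (1 - z) (by linarith) (by linarith) (by linarith)
      (en (J y)) ω
    have h3 : z ^ (cnt A (J y) ω) ≤ 1 := pow_le_one₀ hz0.le hz1.le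
    have h4 : 0 < z ^ (cnt A (J y) ω) := pow_pos hz0 _
    have h5 : E * Z μ ℱ A (J y) (lam + 1) (1 - z) (en (J y)) ω ≤ E * B := mul_le_mul_of_nonneg_left h2 hE0.le
    have h6 : 0 ≤ E * Z μ ℱ A (J y) (lam + 1) (1 - z) (en (J y)) ω := mul_nonneg hE0.le h1
    rw [abs_le]
    constructor <;> linarith
  · filter_upwards [h0, hs] with ω hω0 hωs
    have hD := prod_lim J lo hlo hJ (fun k => dc μ ℱ A k ω) (fun k => dc_nonneg k ω) hω0 lam hωs (1 - z)
      (by linarith) (by linarith)
    rw [← hE] at hD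
    have h1 : Tendsto (fun y => |1 - E / ∏ k ∈ J y, (1 - (1 - z) * dc μ ℱ A k ω)|) atTop (𝓝 0) := by
      have h2 := ((tendsto_const_nhds (x := E) (f := atTop)).div hD hE0.ne').const_sub 1 |>.abs
      rw [div_self hE0.ne', sub_self, abs_zero] at h2
      exact h2
    refine squeeze_zero' (Eventually.of_forall fun _ => abs_nonneg _) ?_ h1
    filter_upwards [hωs.eventually (gt_mem_nhds (show lam < lam + 1 by linarith))] with y hy
    rw [Z_end (J y) (lam + 1) z hz0 hz1 ω hy.le]
    have h3 : z ^ (cnt A (J y) ω) ≤ 1 := pow_le_one₀ hz0.le hz1.le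
    have h4 : 0 < z ^ (cnt A (J y) ω) := pow_pos hz0 _
    have e : z ^ (cnt A (J y) ω) - E * (z ^ (cnt A (J y) ω) / ∏ k ∈ J y, (1 - (1 - z) * dc μ ℱ A k ω)) =
        z ^ (cnt A (J y) ω) * (1 - E / ∏ k ∈ J y, (1 - (1 - z) * dc μ ℱ A k ω)) := by ring
    rw [e, abs_mul, abs_of_pos h4]
    exact mul_le_of_le_one_left (abs_nonneg _) h3

/-- the Poisson weights -/
noncomputable def po (lam : ℝ) (k : ℕ) : ℝ := Real.exp (-lam) * lam ^ k / k.factorial

lemma po_nonneg (lam : ℝ) (hlam : 0 ≤ lam) (k : ℕ) : 0 ≤ po lam k := by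
  unfold po
  positivity

lemma po_le (lam : ℝ) (hlam : 0 ≤ lam) (k : ℕ) : po lam k ≤ 1 := by
  unfold po
  have h1 := Real.pow_div_factorial_le_exp lam hlam k
  rw [mul_div_assoc, Real.exp_neg, ← div_eq_inv_mul, div_le_one (Real.exp_pos _)]
  exact h1

lemma po_sum (lam z : ℝ) : HasSum (fun k => po lam k * z ^ k) (Real.exp (-((1 - z) * lam))) := by
  have h1 : HasSum (fun n : ℕ => (lam * z) ^ n / n.factorial) (Real.exp (lam * z)) := by
    rw [Real.exp_eq_exp_ℝ]
    exact NormedSpace.expSeries_div_hasSum_exp (lam * z)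
  have h2 := h1.mul_left (Real.exp (-lam))
  rw [← Real.exp_add, show -lam + lam * z = -((1 - z) * lam) by ring] at h2
  refine h2.congr_fun ?_ |> fun h => h
  intro k
  unfold po
  rw [mul_pow]
  ring

/-- **The mixing Poisson law.** -/
theorem mixing (hA : ∀ n, MeasurableSet[ℱ n] (A n)) (J : ℕ → Finset ℕ) (lo : ℕ → ℕ) (hlo : Tendsto lo atTop atTop)
    (hJ : ∀ y, ∀ k ∈ J y, lo y ≤ k) (lam : ℝ) (hlam : 0 ≤ lam)
    (h0 : ∀ᵐ ω ∂μ, Tendsto (fun n => dc μ ℱ A n ω) atTop (𝓝 0))
    (hs : ∀ᵐ ω ∂μ, Tendsto (fun y => ∑ k ∈ J y, dc μ ℱ A k ω) atTop (𝓝 lam))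
    (G : ℕ → Set Ω) (hG : ∀ y, MeasurableSet[ℱ (lo y)] (G y)) (k : ℕ) :
    Tendsto (fun y => μ.real (G y ∩ {ω | cnt A (J y) ω = k}) - μ.real (G y) * po lam k) atTop (𝓝 0) := by
  refine coeff_zero (fun y k => μ.real (G y ∩ {ω | cnt A (J y) ω = k}) - μ.real (G y) * po lam k) 1 ?_ ?_ k
  · intro y k
    have h1 : μ.real (G y ∩ {ω | cnt A (J y) ω = k}) ≤ 1 := measureReal_le_one
    have h2 : 0 ≤ μ.real (G y ∩ {ω | cnt A (J y) ω = k}) := measureReal_nonneg
    have h3 : μ.real (G y) ≤ 1 := measureReal_le_one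
    have h4 : 0 ≤ μ.real (G y) := measureReal_nonneg
    have h5 := po_nonneg lam hlam k
    have h6 := po_le lam hlam k
    have h7 : μ.real (G y) * po lam k ≤ 1 := mul_le_one₀ h3 h5 h6
    have h8 : 0 ≤ μ.real (G y) * po lam k := mul_nonneg h4 h5
    rw [abs_le]
    constructor <;> linarith
  · intro z hz0 hz1
    have hmG : ∀ y, MeasurableSet (G y) := fun y => ℱ.le _ _ (hG y)
    have hmc : ∀ y k, MeasurableSet {ω | cnt A (J y) ω = k} := fun y k =>
      ℱ.le _ _ (cnt_meas hA (J y) (en (J y)) (lt_en (J y)) k)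
    refine squeeze_zero_norm (fun y => ?_) (err hA J lo hlo hJ lam hlam h0 hs z hz0 hz1)
    -- the sum
    have hS1 : HasSum (fun k => μ.real (G y ∩ {ω | cnt A (J y) ω = k}) * z ^ k)
        (∫ ω, (G y).indicator (fun _ => (1 : ℝ)) ω * z ^ (cnt A (J y) ω) ∂μ) := by
      have e1 : ∀ ω, (G y).indicator (fun _ => (1 : ℝ)) ω * z ^ (cnt A (J y) ω) =
          ∑ k ∈ Finset.range ((J y).card + 1),
            (G y ∩ {ω | cnt A (J y) ω = k}).indicator (fun _ => z ^ k) ω := by
        intro ω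
        have hle : cnt A (J y) ω ∈ Finset.range ((J y).card + 1) := by
          classical
          rw [Finset.mem_range]
          unfold cnt
          exact Nat.lt_succ_of_le (Finset.card_filter_le _ _)
        rw [Finset.sum_eq_single_of_mem _ hle]
        · by_cases h : ω ∈ G y
          · rw [Set.indicator_of_mem h, Set.indicator_of_mem (show ω ∈ G y ∩ {ω' | cnt A (J y) ω' = cnt A (J y) ω}
              from ⟨h, rfl⟩), one_mul]
          · rw [Set.indicator_of_notMem h, Set.indicator_of_notMem (fun h' => h h'.1), zero_mul]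
        · intro b _ hb
          exact Set.indicator_of_notMem (fun h' => hb h'.2.symm) _
      have e2 : ∫ ω, (G y).indicator (fun _ => (1 : ℝ)) ω * z ^ (cnt A (J y) ω) ∂μ =
          ∑ k ∈ Finset.range ((J y).card + 1), μ.real (G y ∩ {ω | cnt A (J y) ω = k}) * z ^ k := by
        rw [integral_congr_ae (Eventually.of_forall e1), integral_finsetSum]
        · refine Finset.sum_congr rfl fun k _ => ?_
          rw [integral_indicator_const _ ((hmG y).inter (hmc y k)), smul_eq_mul]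
        · intro k _
          exact (integrable_const _).indicator ((hmG y).inter (hmc y k))
      rw [e2]
      apply hasSum_sum_of_ne_finset_zero
      intro k hk
      have : G y ∩ {ω | cnt A (J y) ω = k} = ∅ := by
        ext ω
        simp only [Set.mem_inter_iff, Set.mem_ofPred_eq, Set.mem_empty_iff_false, iff_false, not_and]
        intro _ h
        apply hk
        classical
        rw [Finset.mem_range, ← h]
        unfold cnt
        exact Nat.lt_succ_of_le (Finset.card_filter_le _ _)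
      rw [this, measureReal_empty, zero_mul]
    have hS2 := (po_sum lam z).mul_left (μ.real (G y))
    have hS3 := hS1.sub hS2
    have hS4 : ∑' k, (μ.real (G y ∩ {ω | cnt A (J y) ω = k}) - μ.real (G y) * po lam k) * z ^ k =
        ∫ ω, (G y).indicator (fun _ => (1 : ℝ)) ω * z ^ (cnt A (J y) ω) ∂μ -
          μ.real (G y) * Real.exp (-((1 - z) * lam)) := by
      rw [← hS3.tsum_eq]
      refine tsum_congr fun k => ?_
      ring
    rw [hS4]
    set E := Real.exp (-((1 - z) * lam)) with hE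
    have hE0 : 0 < E := Real.exp_pos _
    have hZi := Z_int (μ := μ) hA (J y) (lam + 1) (1 - z) (by linarith) (by linarith) (by linarith) (lo y) (hJ y)
      (G y) (hG y) (en (J y))
    have hind : ∀ ω, |(G y).indicator (fun _ => (1 : ℝ)) ω| ≤ 1 := by
      intro ω
      rcases ind01 (G y) ω with h | h <;> rw [h] <;> simp
    have mG : Measurable ((G y).indicator (fun _ => (1 : ℝ))) := measurable_const.indicator (hmG y)
    have mc : Measurable (fun ω => z ^ (cnt A (J y) ω)) := by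
      have e : (fun ω => z ^ (cnt A (J y) ω)) = fun ω => ∏ k ∈ J y, (1 - (1 - z) * aa A k ω) := by
        funext ω
        exact pow_cnt z (J y) ω
      rw [e]
      apply Finset.measurable_fun_prod
      intro k _
      exact (((aa_meas hA k (k + 1) (Nat.lt_succ_self k)).mono (ℱ.le _) le_rfl).const_mul _).const_sub _
    have mZ : Measurable (Z μ ℱ A (J y) (lam + 1) (1 - z) (en (J y))) :=
      (Z_meas hA (J y) (lam + 1) (1 - z) (en (J y))).mono (ℱ.le _) le_rfl
    have hc1 : ∀ ω, |z ^ (cnt A (J y) ω)| ≤ 1 := by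
      intro ω
      rw [abs_of_pos (pow_pos hz0 _)]
      exact pow_le_one₀ hz0.le hz1.le
    have hZb : ∀ ω, |Z μ ℱ A (J y) (lam + 1) (1 - z) (en (J y)) ω| ≤
        Real.exp ((1 - z) / (1 - (1 - z)) * (lam + 1)) := by
      intro ω
      rw [abs_of_nonneg (Z_nonneg (J y) (lam + 1) (1 - z) (by linarith) (by linarith) (en (J y)) ω)]
      exact Z_le (J y) (lam + 1) (1 - z) (by linarith) (by linarith) (by linarith) (en (J y)) ω
    have i1 : Integrable (fun ω => (G y).indicator (fun _ => (1 : ℝ)) ω * z ^ (cnt A (J y) ω)) μ :=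
      Integrable.of_bound (C := 1) (mG.mul mc).aestronglyMeasurable (Eventually.of_forall fun ω => by
        rw [Real.norm_eq_abs, abs_mul]
        exact mul_le_one₀ (hind ω) (abs_nonneg _) (hc1 ω))
    have i2 : Integrable (fun ω => (G y).indicator (fun _ => (1 : ℝ)) ω *
        Z μ ℱ A (J y) (lam + 1) (1 - z) (en (J y)) ω) μ :=
      Integrable.of_bound (C := Real.exp ((1 - z) / (1 - (1 - z)) * (lam + 1))) (mG.mul mZ).aestronglyMeasurable
        (Eventually.of_forall fun ω => by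
          rw [Real.norm_eq_abs, abs_mul]
          exact (mul_le_of_le_one_left (abs_nonneg _) (hind ω)).trans (hZb ω))
    have i3 : Integrable (fun ω => z ^ (cnt A (J y) ω)) μ :=
      Integrable.of_bound (C := 1) mc.aestronglyMeasurable (Eventually.of_forall fun ω => by
        rw [Real.norm_eq_abs]; exact hc1 ω)
    have i4 : Integrable (Z μ ℱ A (J y) (lam + 1) (1 - z) (en (J y))) μ :=
      Integrable.of_bound (C := Real.exp ((1 - z) / (1 - (1 - z)) * (lam + 1))) mZ.aestronglyMeasurable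
        (Eventually.of_forall fun ω => by rw [Real.norm_eq_abs]; exact hZb ω)
    have i5 : Integrable (fun ω => z ^ (cnt A (J y) ω) - E * Z μ ℱ A (J y) (lam + 1) (1 - z) (en (J y)) ω) μ :=
      i3.sub (i4.const_mul E)
    rw [← hZi]
    have e3 : ∫ ω, (G y).indicator (fun _ => (1 : ℝ)) ω * z ^ (cnt A (J y) ω) ∂μ -
        (∫ ω, (G y).indicator (fun _ => (1 : ℝ)) ω * Z μ ℱ A (J y) (lam + 1) (1 - z) (en (J y)) ω ∂μ) * E =
        ∫ ω, (G y).indicator (fun _ => (1 : ℝ)) ω *
          (z ^ (cnt A (J y) ω) - E * Z μ ℱ A (J y) (lam + 1) (1 - z) (en (J y)) ω) ∂μ := by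
      rw [mul_comm _ E, ← integral_const_mul, ← integral_sub i1 (i2.const_mul E)]
      refine integral_congr_ae (Eventually.of_forall fun ω => ?_)
      simp only
      ring
    rw [e3]
    refine (norm_integral_le_integral_norm _).trans ?_
    refine integral_mono_of_nonneg (Eventually.of_forall fun ω => norm_nonneg _) i5.abs
      (Eventually.of_forall fun ω => ?_)
    simp only
    rw [Real.norm_eq_abs, abs_mul]
    exact mul_le_of_le_one_left (abs_nonneg _) (hind ω)

end Pool.Agent.U958.PL
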