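import Mathlib
import Pool.Agent.U958.PF.Law
import Pool.Agent.U958.PF.Cnt
import Pool.Agent.U958.PL.Mix

set_option autoImplicit false

/-! # Poisson laws along exponential sequences in sequential random models (helper958) -/

open MeasureTheory Filter Topology

namespace Pool.Agent.U958.PL

open Pool.Agent.U958.SM Pool.Agent.U958.PF Pool.Agent.R528.RM

variable {Ω : Type} {m0 : MeasurableSpace Ω} {μ : Measure Ω} [IsProbabilityMeasure μ]
  {ℱ : Filtration ℕ m0} {A : ℕ → Set Ω}

lemma rhoQ_zero (Q : Finset ℕ) (hQ : ∀ p ∈ Q, p.Prime) : Tendsto (fun n => rhoQ Q (n + 1)) atTop (𝓝 0) := by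
  have hW := WQ_pos Q hQ
  have h : Tendsto (fun n : ℕ => WQ Q / Real.log ((n + 1 : ℕ) : ℝ)) atTop (𝓝 0) :=
      (logN.comp (tendsto_add_atTop_nat 1)).const_div_atTop _
  refine squeeze_zero (fun n => (rhoQ_bounds Q hQ _).1) (fun n => ?_) h
  unfold rhoQ
  split_ifs
  · exact min_le_right _ _
  · exact div_nonneg hW.le (Real.log_natCast_nonneg _)

/-- the set of times of a window -/
def Jw (D : ℕ → ℕ) (a b : ℕ) : Finset ℕ := (Finset.Ico a b).image (fun m => D m - 1)

lemma inj_pred (D : ℕ → ℕ) (hmono : StrictMono D) (h1 : ∀ m, 1 ≤ D m) : Function.Injective (fun m => D m - 1) := by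
  intro m n h
  apply hmono.injective
  have h2 := h1 m
  have h3 := h1 n
  simp only at h
  omega

open Classical in
/-- **The mixing Poisson law along an exponential sequence.** -/
theorem expo_mixing (hA : ∀ n, MeasurableSet[ℱ n] (A n)) (Q : Finset ℕ) (hQ : ∀ p ∈ Q, p.Prime)
    (hcop : ∀ n, ¬ Free Q n → A n = ∅)
    (hd : ∀ᵐ ω ∂μ, Tendsto (fun n : ℕ => dens μ ℱ A n ω * Real.log n)
      (atTop ⊓ 𝓟 {n : ℕ | Free Q (n + 1)}) (𝓝 (WQ Q)))
    (D : ℕ → ℕ) (hmono : StrictMono D) (h1 : ∀ m, 1 ≤ D m) (c : ℝ) (hc : 0 < c)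
    (hlog : Tendsto (fun n : ℕ => Real.log (D n) / n) atTop (𝓝 c)) (T : ℕ) (hT : 0 < T)
    (hper : ∀ n, Free Q (D (n + T)) ↔ Free Q (D n))
    (a b : ℕ → ℕ) (hab : ∀ y, a y ≤ b y) (ha : Tendsto a atTop atTop) (l : ℝ)
    (hl : Tendsto (fun y => Real.log (b y) - Real.log (a y)) atTop (𝓝 l))
    (lo : ℕ → ℕ) (hlo : Tendsto lo atTop atTop) (hloD : ∀ y m, a y ≤ m → lo y < D m)
    (G : ℕ → Set Ω) (hG : ∀ y, MeasurableSet[ℱ (lo y)] (G y)) (k : ℕ) :
    Tendsto (fun y => μ.real (G y ∩ {ω | {m : ℕ | a y ≤ m ∧ m < b y ∧ ω ∈ A (D m)}.ncard = k}) -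
      μ.real (G y) * po (WQ Q / c * ((((Finset.range T).filter (fun t => Free Q (D t))).card : ℝ) / T) * l) k)
      atTop (𝓝 0) := by
  have hW := WQ_pos Q hQ
  set g : ℕ → ℝ := fun n => if Free Q (D n) then 1 else 0 with hg
  have hgsum : ∑ t ∈ Finset.range T, g t = (((Finset.range T).filter (fun t => Free Q (D t))).card : ℝ) := by
    rw [hg, Finset.sum_boole]
  have hg01 : ∀ m, 0 ≤ g m ∧ g m ≤ 1 := by
    intro m
    simp only [hg]
    split_ifs <;> norm_num
  have hDtop : Tendsto D atTop atTop := hmono.tendsto_atTop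
  have hlD : Tendsto (fun n => Real.log (D n)) atTop atTop := logN.comp hDtop
  have hr : ∀ᶠ n in atTop, rhoQ Q (D n) = g n * (WQ Q / Real.log (D n)) := by
    have h1 : ∀ᶠ n in atTop, WQ Q / Real.log (D n) < 1 :=
      (hlD.const_div_atTop (WQ Q)).eventually (gt_mem_nhds one_pos)
    filter_upwards [h1] with n hn
    unfold rhoQ
    by_cases h : Free Q (D n)
    · rw [if_pos h, min_eq_right hn.le, hg]
      simp only [if_pos h, one_mul]
    · rw [if_neg h, hg]
      simp only [if_neg h, zero_mul]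
  have hln : Tendsto (fun n : ℕ => ((n : ℝ) + 1) / Real.log (D n)) atTop (𝓝 (1 / c)) := by
    have h1 : Tendsto (fun n : ℕ => ((n : ℝ) + 1) / n) atTop (𝓝 1) := by
      have h2 := tendsto_one_div_atTop_nhds_zero_nat (𝕜 := ℝ)
      have h3 := h2.const_add 1
      rw [add_zero] at h3
      refine h3.congr' ?_
      filter_upwards [eventually_gt_atTop 0] with n hn
      have : (0 : ℝ) < n := by exact_mod_cast hn
      field_simp
    have h2 := h1.div hlog hc.ne'
    refine h2.congr' ?_
    filter_upwards [eventually_gt_atTop 0] with n hn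
    have : (0 : ℝ) < n := by exact_mod_cast hn
    show ((n : ℝ) + 1) / n / (Real.log (D n) / n) = _
    rw [div_div_div_cancel_right₀ this.ne']
  -- the profile along D
  have hrho : Tendsto (fun m : ℕ => rhoQ Q (D m) * ((m : ℝ) + 1) - g m * (WQ Q / c)) atTop (𝓝 0) := by
    have h1 : Tendsto (fun n : ℕ => |WQ Q| * |((n : ℝ) + 1) / Real.log (D n) - 1 / c|) atTop (𝓝 0) := by
      have h2 := (hln.sub_const (1 / c)).abs.const_mul |WQ Q|
      rw [sub_self, abs_zero, mul_zero] at h2
      exact h2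
    refine squeeze_zero_norm' ?_ h1
    filter_upwards [hr] with n hn
    have e : rhoQ Q (D n) * ((n : ℝ) + 1) - g n * (WQ Q / c) =
        g n * (WQ Q * (((n : ℝ) + 1) / Real.log (D n) - 1 / c)) := by
      rw [hn]
      ring
    rw [Real.norm_eq_abs, e, abs_mul, abs_mul, abs_of_nonneg (hg01 n).1]
    exact mul_le_of_le_one_left (by positivity) (hg01 n).2
  have hbd : ∀ᶠ m : ℕ in atTop, rhoQ Q (D m) * ((m : ℝ) + 1) ≤ WQ Q / c + 1 := by
    filter_upwards [hrho.eventually (gt_mem_nhds (show (0 : ℝ) < 1 by norm_num))] with m hm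
    have h2 : g m * (WQ Q / c) ≤ WQ Q / c := mul_le_of_le_one_left (by positivity) (hg01 m).2
    linarith
  have hprof := profileQ Q hQ hcop hd
  have hdc : ∀ᵐ ω ∂μ, ∀ n, dc μ ℱ A n ω = dens μ ℱ A n ω := by
    rw [ae_all_iff]
    intro n
    exact dc_eq hA n
  have h0 : ∀ᵐ ω ∂μ, Tendsto (fun n => dc μ ℱ A n ω) atTop (𝓝 0) := by
    filter_upwards [hprof, hdc] with ω hω hω2
    have h2 := (rhoQ_zero Q hQ).const_mul 2
    rw [mul_zero] at h2
    refine squeeze_zero' (Eventually.of_forall fun n => dc_nonneg n ω) ?_ h2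
    filter_upwards [hω 1 one_pos] with n hn
    rw [hω2 n]
    have h3 := (abs_le.1 hn).2
    linarith
  have hs : ∀ᵐ ω ∂μ, Tendsto (fun y => ∑ k ∈ Jw D (a y) (b y), dc μ ℱ A k ω) atTop
      (𝓝 (WQ Q / c * ((((Finset.range T).filter (fun t => Free Q (D t))).card : ℝ) / T) * l)) := by
    filter_upwards [hprof, hdc] with ω hω hω2
    have hDp : Tendsto (fun m => D m - 1) atTop atTop := (tendsto_sub_atTop_nat 1).comp hDtop
    have hq : Tendsto (fun m : ℕ => dc μ ℱ A (D m - 1) ω * ((m : ℝ) + 1) - g m * (WQ Q / c)) atTop (𝓝 0) := by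
      have h2 : Tendsto (fun m : ℕ => (dc μ ℱ A (D m - 1) ω - rhoQ Q (D m)) * ((m : ℝ) + 1)) atTop (𝓝 0) := by
        rw [Metric.tendsto_atTop]
        intro ε hε
        have h3 := hDp.eventually (hω (ε / (2 * (WQ Q / c + 1))) (by positivity))
        obtain ⟨n0, hn0⟩ := eventually_atTop.1 (h3.and hbd)
        refine ⟨n0, fun m hm => ?_⟩
        obtain ⟨h4, h5⟩ := hn0 m hm
        have e1 : D m - 1 + 1 = D m := Nat.sub_add_cancel (h1 m)
        rw [e1] at h4
        rw [Real.dist_eq, sub_zero, hω2, abs_mul, abs_of_pos (show (0 : ℝ) < (m : ℝ) + 1 by positivity)]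
        calc |dens μ ℱ A (D m - 1) ω - rhoQ Q (D m)| * ((m : ℝ) + 1)
            ≤ ε / (2 * (WQ Q / c + 1)) * rhoQ Q (D m) * ((m : ℝ) + 1) := by gcongr
          _ = ε / (2 * (WQ Q / c + 1)) * (rhoQ Q (D m) * ((m : ℝ) + 1)) := by ring
          _ ≤ ε / (2 * (WQ Q / c + 1)) * (WQ Q / c + 1) := mul_le_mul_of_nonneg_left h5 (by positivity)
          _ = ε / 2 := by
              have : WQ Q / c + 1 ≠ 0 := by positivity
              field_simp
          _ < ε := by linarith
      have h6 := h2.add hrho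
      rw [add_zero] at h6
      refine h6.congr fun m => ?_
      ring
    have hw := win (fun m => dc μ ℱ A (D m - 1) ω) g T hT (fun n => by simp only [hg, hper]) (WQ Q / c) hq a b hab
      ha l hl
    rw [hgsum] at hw
    refine hw.congr fun y => ?_
    unfold Jw
    rw [Finset.sum_image]
    intro m _ n _ h
    exact inj_pred D hmono h1 h
  have hl0 : 0 ≤ l := by
    refine ge_of_tendsto hl ?_
    filter_upwards [ha.eventually_gt_atTop 0] with y hy
    have h2 : (0 : ℝ) < a y := by exact_mod_cast hy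
    have h3 : (a y : ℝ) ≤ b y := by exact_mod_cast hab y
    have := Real.log_le_log h2 h3
    linarith
  have key := mixing (μ := μ) hA (fun y => Jw D (a y) (b y)) lo hlo (by
      intro y k hk
      unfold Jw at hk
      obtain ⟨m, hm, rfl⟩ := Finset.mem_image.1 hk
      have := hloD y m (Finset.mem_Ico.1 hm).1
      omega) (WQ Q / c * ((((Finset.range T).filter (fun t => Free Q (D t))).card : ℝ) / T) * l)
      (by positivity) h0 hs G hG k
  refine key.congr fun y => ?_
  have e : ∀ ω, cnt A (Jw D (a y) (b y)) ω = {m : ℕ | a y ≤ m ∧ m < b y ∧ ω ∈ A (D m)}.ncard := by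
    intro ω
    unfold cnt Jw
    rw [Finset.filter_image, Finset.card_image_of_injective _ (inj_pred D hmono h1), ← Set.ncard_coe_finset]
    congr 1
    ext m
    simp only [Finset.coe_filter, Finset.mem_Ico, Set.mem_ofPred_eq, Nat.sub_add_cancel (h1 m), and_assoc]
  simp only [e]

/-- **Joint law of finitely many windows from the mixing law.** -/
theorem joint (C : ℕ → ℕ → Ω → ℕ) (u : ℕ → ℕ → ℕ) (lam : ℕ → ℝ)
    (hmeas : ∀ i y k, MeasurableSet[ℱ (u (i + 1) y)] {ω | C i y ω = k}) (hu : ∀ i y, u i y ≤ u (i + 1) y) (r : ℕ)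
    (hmix : ∀ i < r, ∀ (G : ℕ → Set Ω), (∀ y, MeasurableSet[ℱ (u i y)] (G y)) → ∀ k : ℕ,
      Tendsto (fun y => μ.real (G y ∩ {ω | C i y ω = k}) - μ.real (G y) * po (lam i) k) atTop (𝓝 0)) (k : ℕ → ℕ) :
    Tendsto (fun y => μ.real {ω | ∀ i < r, C i y ω = k i}) atTop (𝓝 (∏ i ∈ Finset.range r, po (lam i) (k i))) := by
  induction r with
  | zero =>
    simp only [Nat.not_lt_zero, false_implies, implies_true, Finset.range_zero, Finset.prod_empty]
    have : ({ω : Ω | True} : Set Ω) = Set.univ := by ext; simp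
    rw [this]
    simp
  | succ r ih =>
    have h1 := ih (fun i hi => hmix i (by omega))
    have hGm : ∀ y, MeasurableSet[ℱ (u r y)] {ω | ∀ i < r, C i y ω = k i} := by
      intro y
      have e : {ω | ∀ i < r, C i y ω = k i} = ⋂ i ∈ Finset.range r, {ω | C i y ω = k i} := by
        ext ω
        simp
      rw [e]
      apply Finset.measurableSet_biInter (m := ℱ (u r y))
      intro i hi
      have hi' := Finset.mem_range.1 hi
      have hmon : Monotone (fun i => u i y) := monotone_nat_of_le_succ fun i => hu i y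
      exact ℱ.mono (hmon (show i + 1 ≤ r from hi')) _ (hmeas i y (k i))
    have h2 := hmix r (Nat.lt_succ_self r) _ hGm (k r)
    have h3 := h2.add (h1.mul_const (po (lam r) (k r)))
    rw [zero_add, ← Finset.prod_range_succ (fun i => po (lam i) (k i))] at h3
    refine h3.congr fun y => ?_
    rw [sub_add_cancel]
    congr 1
    ext ω
    simp only [Set.mem_inter_iff, Set.mem_ofPred_eq]
    constructor
    · rintro ⟨h4, h5⟩ i hi
      rcases Nat.lt_succ_iff_lt_or_eq.1 hi with h | h
      · exact h4 i h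
      · subst h; exact h5
    · intro h
      exact ⟨fun i hi => h i (by omega), h r (Nat.lt_succ_self r)⟩

/-- index windows from size windows -/
lemma MX_win (u v : ℕ → ℕ) (β : ℝ) (hβ : 0 < β) (hu : Tendsto u atTop atTop) (hv : Tendsto v atTop atTop)
    (h : Tendsto (fun y => Real.log (v y) / Real.log (u y)) atTop (𝓝 β)) :
    Tendsto (fun y => Real.log (MX (v y)) - Real.log (MX (u y))) atTop (𝓝 (Real.log β)) := by
  have hu0 : 0 < 2 * Real.log (3 + √8) := by
    have := Real.log_pos one_lt_u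
    positivity
  have h1 := MX_ratio.comp hu
  have h2 := MX_ratio.comp hv
  have h3 := (h1.div h2 hu0.ne').mul h
  rw [div_self hu0.ne', one_mul] at h3
  have h4 := (Real.continuousAt_log hβ.ne').tendsto.comp h3
  refine h4.congr' ?_
  filter_upwards [(MX_top.comp hu).eventually_gt_atTop 0, (MX_top.comp hv).eventually_gt_atTop 0,
    (logN.comp hu).eventually_gt_atTop 0, (logN.comp hv).eventually_gt_atTop 0] with y h5 h6 h7 h8
  simp only [Function.comp] at h5 h6 h7 h8 ⊢
  have h5' : (0 : ℝ) < MX (u y) := by exact_mod_cast h5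
  have h6' : (0 : ℝ) < MX (v y) := by exact_mod_cast h6
  rw [← Real.log_div h6'.ne' h5'.ne']
  congr 1
  show (Real.log (u y) / MX (u y)) / (Real.log (v y) / MX (v y)) * (Real.log (v y) / Real.log (u y)) = _
  field_simp

end Pool.Agent.U958.PL
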