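import Mathlib
import Pool.Agent.U958.SM.Exp

set_option autoImplicit false

/-! # Empty windows in sequential random models (helper958) -/

open MeasureTheory Filter Topology

namespace Pool.Agent.U958.PL

open Pool.Agent.U958.SM

variable {Ω : Type} {m0 : MeasurableSpace Ω} {μ : Measure Ω} [IsProbabilityMeasure μ]
  {ℱ : Filtration ℕ m0} {A : ℕ → Set Ω}

/-- the probability of an event of the past and of the next step -/
lemma real_inter (hA : ∀ n, MeasurableSet[ℱ n] (A n)) (n : ℕ) (B : Set Ω) (hB : MeasurableSet[ℱ n] B) :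
    μ.real (B ∩ (A (n + 1))ᶜ) = μ.real B - ∫ ω, B.indicator (fun _ => (1 : ℝ)) ω * dc μ ℱ A n ω ∂μ := by
  have hB' : MeasurableSet B := ℱ.le n _ hB
  have hA' : MeasurableSet (A (n + 1)) := ℱ.le (n + 1) _ (hA (n + 1))
  have h1 := int_ind (μ := μ) hA n (B.indicator (fun _ => (1 : ℝ)))
    ((@measurable_const _ _ _ (ℱ n) (1 : ℝ)).indicator hB).stronglyMeasurable 1 (fun ω => by
      rcases ind01 B ω with h | h <;> rw [h] <;> simp)
  rw [← h1]
  have e : ∀ ω, B.indicator (fun _ => (1 : ℝ)) ω * (A (n + 1)).indicator (fun _ => (1 : ℝ)) ω =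
      (B ∩ A (n + 1)).indicator (fun _ => (1 : ℝ)) ω := by
    intro ω
    by_cases h : ω ∈ B
    · by_cases h' : ω ∈ A (n + 1)
      · rw [Set.indicator_of_mem h, Set.indicator_of_mem h', Set.indicator_of_mem (show ω ∈ B ∩ A (n + 1) from ⟨h, h'⟩),
          one_mul]
      · rw [Set.indicator_of_notMem h', Set.indicator_of_notMem (show ω ∉ B ∩ A (n + 1) from fun h2 => h' h2.2),
          mul_zero]
    · rw [Set.indicator_of_notMem h, Set.indicator_of_notMem (show ω ∉ B ∩ A (n + 1) from fun h2 => h h2.1),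
        zero_mul]
  have e2 : ∫ ω, B.indicator (fun _ => (1 : ℝ)) ω * (A (n + 1)).indicator (fun _ => (1 : ℝ)) ω ∂μ =
      μ.real (B ∩ A (n + 1)) := by
    rw [integral_congr_ae (Eventually.of_forall e), integral_indicator_const _ (hB'.inter hA'), smul_eq_mul, mul_one]
  rw [e2]
  have h2 := measureReal_inter_add_sdiff (μ := μ) (s := B) hA'
  rw [Set.sdiff_eq] at h2
  linarith

lemma ind_int (n : ℕ) (B : Set Ω) (hB : MeasurableSet[ℱ n] B) :
    Integrable (fun ω => B.indicator (fun _ => (1 : ℝ)) ω * dc μ ℱ A n ω) μ := by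
  refine Integrable.of_bound (C := 1)
    (((((@measurable_const _ _ _ (ℱ n) (1 : ℝ)).indicator hB).mul
      (dc_meas (μ := μ) (ℱ := ℱ) (A := A) n).measurable).stronglyMeasurable).mono (ℱ.le n)).aestronglyMeasurable
      (Eventually.of_forall fun ω => ?_)
  have h1 := dc_nonneg (μ := μ) (ℱ := ℱ) (A := A) n ω
  have h2 := dc_le (μ := μ) (ℱ := ℱ) (A := A) n ω
  rw [Real.norm_eq_abs]
  show |B.indicator (fun _ => (1 : ℝ)) ω * dc μ ℱ A n ω| ≤ 1
  rcases ind01 B ω with h | h <;> rw [h]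
  · simp
  · rw [one_mul, abs_of_nonneg h1]; exact h2

/-- upper bound of one step -/
lemma step_up (hA : ∀ n, MeasurableSet[ℱ n] (A n)) (n : ℕ) (B : Set Ω) (hB : MeasurableSet[ℱ n] B) (q : ℝ)
    (h : ∀ ω ∈ B, q ≤ dc μ ℱ A n ω) : μ.real (B ∩ (A (n + 1))ᶜ) ≤ (1 - q) * μ.real B := by
  have hB' : MeasurableSet B := ℱ.le n _ hB
  rw [real_inter hA n B hB]
  have h1 : ∫ ω, B.indicator (fun _ => q) ω ∂μ ≤ ∫ ω, B.indicator (fun _ => (1 : ℝ)) ω * dc μ ℱ A n ω ∂μ := by
    refine integral_mono ((integrable_const q).indicator hB') (ind_int n B hB) fun ω => ?_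
    by_cases hω : ω ∈ B
    · rw [Set.indicator_of_mem hω, Set.indicator_of_mem hω, one_mul]
      exact h ω hω
    · rw [Set.indicator_of_notMem hω, Set.indicator_of_notMem hω, zero_mul]
  rw [integral_indicator_const _ hB', smul_eq_mul] at h1
  linarith

/-- lower bound of one step -/
lemma step_low (hA : ∀ n, MeasurableSet[ℱ n] (A n)) (n : ℕ) (B : Set Ω) (hB : MeasurableSet[ℱ n] B) (q : ℝ)
    (h : ∀ ω ∈ B, dc μ ℱ A n ω ≤ q) : (1 - q) * μ.real B ≤ μ.real (B ∩ (A (n + 1))ᶜ) := by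
  have hB' : MeasurableSet B := ℱ.le n _ hB
  rw [real_inter hA n B hB]
  have h1 : ∫ ω, B.indicator (fun _ => (1 : ℝ)) ω * dc μ ℱ A n ω ∂μ ≤ ∫ ω, B.indicator (fun _ => q) ω ∂μ := by
    refine integral_mono (ind_int n B hB) ((integrable_const q).indicator hB') fun ω => ?_
    by_cases hω : ω ∈ B
    · rw [Set.indicator_of_mem hω, Set.indicator_of_mem hω, one_mul]
      exact h ω hω
    · rw [Set.indicator_of_notMem hω, Set.indicator_of_notMem hω, zero_mul]
  rw [integral_indicator_const _ hB', smul_eq_mul] at h1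
  linarith

lemma filt_succ_mem (J : Finset ℕ) (n : ℕ) (hn : n ∈ J) :
    J.filter (fun k => k < n + 1) = insert n (J.filter (fun k => k < n)) := by
  ext k
  simp only [Finset.mem_filter, Finset.mem_insert]
  constructor
  · rintro ⟨h1, h2⟩
    rcases Nat.lt_succ_iff_lt_or_eq.1 h2 with h3 | h3
    · exact Or.inr ⟨h1, h3⟩
    · exact Or.inl h3
  · rintro (h1 | ⟨h1, h2⟩)
    · subst h1
      exact ⟨hn, Nat.lt_succ_self _⟩
    · exact ⟨h1, by omega⟩

lemma filt_succ_notMem (J : Finset ℕ) (n : ℕ) (hn : n ∉ J) :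
    J.filter (fun k => k < n + 1) = J.filter (fun k => k < n) := by
  ext k
  simp only [Finset.mem_filter]
  constructor
  · rintro ⟨h1, h2⟩
    refine ⟨h1, ?_⟩
    rcases Nat.lt_succ_iff_lt_or_eq.1 h2 with h3 | h3
    · exact h3
    · exact absurd (h3 ▸ h1) hn
  · rintro ⟨h1, h2⟩
    exact ⟨h1, by omega⟩

/-- the event that nothing is chosen in `J` before `n` and the densities are at least `q` there -/
def eU (μ : Measure Ω) (ℱ : Filtration ℕ m0) (A : ℕ → Set Ω) (J : Finset ℕ) (q : ℕ → ℝ) (n : ℕ) : Set Ω :=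
  ⋂ k ∈ J.filter (fun k => k < n), {ω | q k ≤ dc μ ℱ A k ω} ∩ (A (k + 1))ᶜ

lemma dc_m (k n : ℕ) (h : k ≤ n) : Measurable[ℱ n] (dc μ ℱ A k) :=
  ((dc_meas (μ := μ) (ℱ := ℱ) (A := A) k).mono (ℱ.mono h)).measurable

lemma eU_meas (hA : ∀ n, MeasurableSet[ℱ n] (A n)) (J : Finset ℕ) (q : ℕ → ℝ) (n : ℕ) :
    MeasurableSet[ℱ n] (eU μ ℱ A J q n) := by
  apply Finset.measurableSet_biInter (m := ℱ n)
  intro k hk
  have hk' : k < n := (Finset.mem_filter.1 hk).2
  apply MeasurableSet.inter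
  · exact measurableSet_le (mδ := ℱ n) (@measurable_const _ _ _ (ℱ n) (q k)) (dc_m k n hk'.le)
  · exact (ℱ.mono hk' _ (hA (k + 1))).compl

/-- **An upper bound for the probability of an empty window.** -/
theorem empty_up (hA : ∀ n, MeasurableSet[ℱ n] (A n)) (J : Finset ℕ) (q : ℕ → ℝ)
    (hq : ∀ k, 0 ≤ q k ∧ q k ≤ 1) (n : ℕ) :
    μ.real (eU μ ℱ A J q n) ≤ ∏ k ∈ J.filter (fun k => k < n), (1 - q k) := by
  induction n with
  | zero =>
    rw [Finset.filter_false_of_mem (by simp), Finset.prod_empty]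
    exact measureReal_le_one
  | succ n ih =>
    by_cases hn : n ∈ J
    · rw [filt_succ_mem J n hn, Finset.prod_insert (by simp)]
      have e : eU μ ℱ A J q (n + 1) = (eU μ ℱ A J q n ∩ {ω | q n ≤ dc μ ℱ A n ω}) ∩ (A (n + 1))ᶜ := by
        unfold eU
        rw [filt_succ_mem J n hn, Finset.set_biInter_insert]
        ext ω
        simp only [Set.mem_inter_iff]
        tauto
      rw [e]
      have hm : MeasurableSet[ℱ n] (eU μ ℱ A J q n ∩ {ω | q n ≤ dc μ ℱ A n ω}) :=
        (eU_meas hA J q n).inter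
          (measurableSet_le (mδ := ℱ n) (@measurable_const _ _ _ (ℱ n) (q n)) (dc_m n n le_rfl))
      have h1 := step_up (μ := μ) hA n _ hm (q n) (fun ω hω => hω.2)
      refine h1.trans ?_
      apply mul_le_mul_of_nonneg_left _ (by linarith [(hq n).2])
      exact (measureReal_mono Set.inter_subset_left).trans ih
    · have e : eU μ ℱ A J q (n + 1) = eU μ ℱ A J q n := by
        unfold eU
        rw [filt_succ_notMem J n hn]
      rw [e, filt_succ_notMem J n hn]
      exact ih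

/-- nothing chosen before `n` in `J` -/
def eV (A : ℕ → Set Ω) (J : Finset ℕ) (n : ℕ) : Set Ω := ⋂ k ∈ J.filter (fun k => k < n), (A (k + 1))ᶜ

/-- densities at most `q` before `n` in `J` -/
def eG (μ : Measure Ω) (ℱ : Filtration ℕ m0) (A : ℕ → Set Ω) (J : Finset ℕ) (q : ℕ → ℝ) (n : ℕ) : Set Ω :=
  ⋂ k ∈ J.filter (fun k => k < n), {ω | dc μ ℱ A k ω ≤ q k}

lemma eV_meas (hA : ∀ n, MeasurableSet[ℱ n] (A n)) (J : Finset ℕ) (n : ℕ) : MeasurableSet[ℱ n] (eV A J n) := by
  apply Finset.measurableSet_biInter (m := ℱ n)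
  intro k hk
  have hk' : k < n := (Finset.mem_filter.1 hk).2
  exact (ℱ.mono hk' _ (hA (k + 1))).compl

lemma eG_meas (J : Finset ℕ) (q : ℕ → ℝ) (n : ℕ) : MeasurableSet[ℱ n] (eG μ ℱ A J q n) := by
  apply Finset.measurableSet_biInter (m := ℱ n)
  intro k hk
  have hk' : k < n := (Finset.mem_filter.1 hk).2
  exact measurableSet_le (mδ := ℱ n) (dc_m k n hk'.le) (@measurable_const _ _ _ (ℱ n) (q k))

/-- **A lower bound for the probability of an empty window.** -/
theorem empty_low (hA : ∀ n, MeasurableSet[ℱ n] (A n)) (J : Finset ℕ) (q : ℕ → ℝ)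
    (hq : ∀ k, 0 ≤ q k ∧ q k ≤ 1) (lo : ℕ) (hJ : ∀ k ∈ J, lo ≤ k) (G : Set Ω) (hG : MeasurableSet[ℱ lo] G) (n : ℕ) :
    (∏ k ∈ J.filter (fun k => k < n), (1 - q k)) * μ.real G - μ.real (G \ eG μ ℱ A J q n) ≤
      μ.real (G ∩ (eV A J n ∩ eG μ ℱ A J q n)) := by
  induction n with
  | zero =>
    have e1 : eV A J 0 = Set.univ := by
      unfold eV
      rw [Finset.filter_false_of_mem (by simp)]
      simp
    have e2 : eG μ ℱ A J q 0 = Set.univ := by
      unfold eG
      rw [Finset.filter_false_of_mem (by simp)]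
      simp
    rw [e1, e2, Finset.filter_false_of_mem (by simp), Finset.prod_empty]
    simp
  | succ n ih =>
    by_cases hn : n ∈ J
    · have hGn : MeasurableSet[ℱ n] G := ℱ.mono (hJ n hn) _ hG
      have hG' : MeasurableSet G := ℱ.le _ _ hG
      have hD : MeasurableSet[ℱ n] {ω | dc μ ℱ A n ω ≤ q n} :=
        measurableSet_le (mδ := ℱ n) (dc_m n n le_rfl) (@measurable_const _ _ _ (ℱ n) (q n))
      have e1 : eV A J (n + 1) = eV A J n ∩ (A (n + 1))ᶜ := by
        unfold eV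
        rw [filt_succ_mem J n hn, Finset.set_biInter_insert, Set.inter_comm]
      have e2 : eG μ ℱ A J q (n + 1) = eG μ ℱ A J q n ∩ {ω | dc μ ℱ A n ω ≤ q n} := by
        unfold eG
        rw [filt_succ_mem J n hn, Finset.set_biInter_insert, Set.inter_comm]
      rw [filt_succ_mem J n hn, Finset.prod_insert (by simp)]
      set P := ∏ k ∈ J.filter (fun k => k < n), (1 - q k) with hP
      set U := G ∩ (eV A J n ∩ eG μ ℱ A J q n) with hU
      have hUm : MeasurableSet[ℱ n] U := hGn.inter ((eV_meas hA J n).inter (eG_meas J q n))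
      have h1 := step_low (μ := μ) hA n (U ∩ {ω | dc μ ℱ A n ω ≤ q n}) (hUm.inter hD) (q n) (fun ω hω => hω.2)
      have e3 : G ∩ (eV A J (n + 1) ∩ eG μ ℱ A J q (n + 1)) =
          (U ∩ {ω | dc μ ℱ A n ω ≤ q n}) ∩ (A (n + 1))ᶜ := by
        rw [e1, e2, hU]
        ext ω
        simp only [Set.mem_inter_iff]
        tauto
      rw [e3]
      refine le_trans ?_ h1
      have hD' : MeasurableSet {ω | dc μ ℱ A n ω ≤ q n} := ℱ.le _ _ hD
      have h2 := measureReal_inter_add_sdiff (μ := μ) (s := U) hD'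
      have h3 : μ.real (U \ {ω | dc μ ℱ A n ω ≤ q n}) + μ.real (G \ eG μ ℱ A J q n) ≤
          μ.real (G \ eG μ ℱ A J q (n + 1)) := by
        rw [← measureReal_union]
        · refine measureReal_mono ?_
          rintro ω (⟨h4, h5⟩ | ⟨h4, h5⟩)
          · exact ⟨h4.1, fun h => h5 (by rw [e2] at h; exact h.2)⟩
          · exact ⟨h4, fun h => h5 (by rw [e2] at h; exact h.1)⟩
        · rw [Set.disjoint_left]
          rintro ω ⟨h4, _⟩ ⟨_, h5⟩
          exact h5 h4.2.2
        · exact hG'.diff (ℱ.le _ _ (eG_meas J q n))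
      have hq1 := (hq n).1
      have hq2 := (hq n).2
      have h4 : 0 ≤ μ.real (G \ eG μ ℱ A J q n) := measureReal_nonneg
      have h5 : 0 ≤ μ.real (U \ {ω | dc μ ℱ A n ω ≤ q n}) := measureReal_nonneg
      have h6 : μ.real (U ∩ {ω | dc μ ℱ A n ω ≤ q n}) =
          μ.real U - μ.real (U \ {ω | dc μ ℱ A n ω ≤ q n}) := by linarith
      rw [h6]
      have h7 : (1 - q n) * (P * μ.real G - μ.real (G \ eG μ ℱ A J q n)) ≤ (1 - q n) * μ.real U :=
        mul_le_mul_of_nonneg_left ih (by linarith)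
      nlinarith
    · have e1 : eV A J (n + 1) = eV A J n := by
        unfold eV
        rw [filt_succ_notMem J n hn]
      have e2 : eG μ ℱ A J q (n + 1) = eG μ ℱ A J q n := by
        unfold eG
        rw [filt_succ_notMem J n hn]
      rw [e1, e2, filt_succ_notMem J n hn]
      exact ih

/-- **No empty windows from some point on.** -/
theorem bc1 (hA : ∀ n, MeasurableSet[ℱ n] (A n)) (q : ℕ → ℝ) (hq : ∀ k, 0 ≤ q k ∧ q k ≤ 1) (J : ℕ → Finset ℕ)
    (lo : ℕ → ℕ) (hlo : Tendsto lo atTop atTop) (hJ : ∀ i, ∀ k ∈ J i, lo i ≤ k)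
    (hsum : Summable (fun i => Real.exp (-∑ k ∈ J i, q k)))
    (hgood : ∀ᵐ ω ∂μ, ∀ᶠ k in atTop, q k ≤ dc μ ℱ A k ω) :
    ∀ᵐ ω ∂μ, ∀ᶠ i in atTop, ∃ k ∈ J i, ω ∈ A (k + 1) := by
  set E : ℕ → Set Ω := fun i => eU μ ℱ A (J i) q ((J i).sup id + 1) with hE
  have hfil : ∀ i, (J i).filter (fun k => k < (J i).sup id + 1) = J i := fun i =>
    Finset.filter_true_of_mem fun k hk => Nat.lt_succ_of_le (Finset.le_sup (f := id) hk)
  have hP : ∀ i, μ.real (E i) ≤ Real.exp (-∑ k ∈ J i, q k) := by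
    intro i
    have h1 := empty_up (μ := μ) hA (J i) q hq ((J i).sup id + 1)
    rw [hfil] at h1
    refine h1.trans ?_
    rw [← Finset.sum_neg_distrib, Real.exp_sum]
    apply Finset.prod_le_prod
    · intro k _; linarith [(hq k).2]
    · intro k _
      have := Real.add_one_le_exp (-(q k))
      linarith
  have hs : ∑' i, μ (E i) ≠ ⊤ := by
    have h1 : ∀ i, μ (E i) = ENNReal.ofReal (μ.real (E i)) := fun i => by
      rw [ofReal_measureReal]
    simp only [h1]
    have h2 : Summable (fun i => μ.real (E i)) :=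
      Summable.of_nonneg_of_le (fun i => measureReal_nonneg) hP hsum
    exact h2.tsum_ofReal_ne_top
  have h1 := measure_limsup_atTop_eq_zero hs
  have h2 : ∀ᵐ ω ∂μ, ω ∉ limsup E atTop := by
    rw [ae_iff]
    simpa using h1
  filter_upwards [h2, hgood] with ω hω hg
  have h3 : ∀ᶠ i in atTop, ω ∉ E i := by
    rw [mem_limsup_iff_frequently_mem] at hω
    simpa [not_frequently] using hω
  obtain ⟨k0, hk0⟩ := eventually_atTop.1 hg
  filter_upwards [h3, hlo.eventually_ge_atTop k0] with i hi hi2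
  by_contra hne
  push Not at hne
  apply hi
  rw [hE]
  simp only [eU, hfil]
  rw [Set.mem_iInter₂]
  intro k hk
  exact ⟨hk0 k (hi2.trans (hJ i k hk)), hne k hk⟩

/-- **Infinitely many empty windows.** -/
theorem bc2 (hA : ∀ n, MeasurableSet[ℱ n] (A n)) (q : ℕ → ℝ) (hq : ∀ k, 0 ≤ q k ∧ q k ≤ 1) (J : ℕ → Finset ℕ)
    (lo : ℕ → ℕ) (hmono : Monotone lo) (hlo : Tendsto lo atTop atTop)
    (hJ : ∀ i, ∀ k ∈ J i, lo i ≤ k ∧ k < lo (i + 1))
    (hsum : Tendsto (fun n => ∑ i ∈ Finset.range n, ∏ k ∈ J i, (1 - q k)) atTop atTop)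
    (hgood : ∀ᵐ ω ∂μ, ∀ᶠ k in atTop, dc μ ℱ A k ω ≤ q k) :
    ∀ᵐ ω ∂μ, ∃ᶠ i in atTop, ∀ k ∈ J i, ω ∉ A (k + 1) := by
  -- the events
  set Gh : ℕ → ℕ → Set Ω := fun k0 i => {ω | ∀ k ∈ Finset.Ico k0 (lo i), dc μ ℱ A k ω ≤ q k} with hGh
  set Cc : ℕ → Set Ω := fun i => {ω | ∃ k ∈ J i, ω ∈ A (k + 1)} with hCc
  set GG : ℕ → ℕ → ℕ → Set Ω := fun k0 I i => {ω | ∀ j ∈ Finset.Ico I i, ω ∈ Cc j} ∩ Gh k0 i with hGG
  have hGhm : ∀ k0 i, MeasurableSet[ℱ (lo i)] (Gh k0 i) := by
    intro k0 i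
    have e : Gh k0 i = ⋂ k ∈ Finset.Ico k0 (lo i), {ω | dc μ ℱ A k ω ≤ q k} := by
      ext ω
      simp only [hGh, Set.mem_ofPred_eq, Set.mem_iInter]
    rw [e]
    apply Finset.measurableSet_biInter (m := ℱ (lo i))
    intro k hk
    exact measurableSet_le (mδ := ℱ (lo i)) (dc_m k _ (Finset.mem_Ico.1 hk).2.le)
      (@measurable_const _ _ _ (ℱ (lo i)) (q k))
  have hCm : ∀ i, MeasurableSet[ℱ (lo (i + 1))] (Cc i) := by
    intro i
    have e : Cc i = ⋃ k ∈ J i, A (k + 1) := by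
      ext ω
      simp only [hCc, Set.mem_ofPred_eq, Set.mem_iUnion, exists_prop]
    rw [e]
    apply Finset.measurableSet_biUnion (m := ℱ (lo (i + 1)))
    intro k hk
    exact ℱ.mono (hJ i k hk).2 _ (hA (k + 1))
  have hGGm : ∀ k0 I i, MeasurableSet[ℱ (lo i)] (GG k0 I i) := by
    intro k0 I i
    refine MeasurableSet.inter ?_ (hGhm k0 i)
    have e : {ω | ∀ j ∈ Finset.Ico I i, ω ∈ Cc j} = ⋂ j ∈ Finset.Ico I i, Cc j := by
      ext ω
      simp only [Set.mem_ofPred_eq, Set.mem_iInter]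
    rw [e]
    apply Finset.measurableSet_biInter (m := ℱ (lo i))
    intro j hj
    exact ℱ.mono (hmono (Finset.mem_Ico.1 hj).2) _ (hCm j)
  have hGhmono : ∀ k0 i, Gh k0 (i + 1) ⊆ Gh k0 i := by
    intro k0 i ω hω k hk
    apply hω k
    rw [Finset.mem_Ico] at hk ⊢
    exact ⟨hk.1, hk.2.trans_le (hmono (Nat.le_succ i))⟩
  set π : ℕ → ℝ := fun i => ∏ k ∈ J i, (1 - q k) with hπ
  have hπ0 : ∀ i, 0 ≤ π i := fun i => Finset.prod_nonneg fun k _ => by linarith [(hq k).2]
  have hπ1 : ∀ i, π i ≤ 1 := fun i => Finset.prod_le_one (fun k _ => by linarith [(hq k).2])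
    fun k _ => by linarith [(hq k).1]
  -- one step
  have hstep : ∀ k0 I i, k0 ≤ lo I → I ≤ i → μ.real (GG k0 I (i + 1)) ≤
      (1 - π i) * μ.real (GG k0 I i) + (μ.real (Gh k0 i) - μ.real (Gh k0 (i + 1))) := by
    intro k0 I i hk0 hI
    have hfil : (J i).filter (fun k => k < lo (i + 1)) = J i :=
      Finset.filter_true_of_mem fun k hk => (hJ i k hk).2
    have h1 := empty_low (μ := μ) hA (J i) q hq (lo i) (fun k hk => (hJ i k hk).1) (GG k0 I i) (hGGm k0 I i)
      (lo (i + 1))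
    rw [hfil] at h1
    have hmeasG : MeasurableSet (GG k0 I i) := ℱ.le _ _ (hGGm k0 I i)
    have hmeasC : MeasurableSet (Cc i) := ℱ.le _ _ (hCm i)
    have h2 := measureReal_inter_add_sdiff (μ := μ) (s := GG k0 I i) hmeasC
    have h3 : μ.real (GG k0 I (i + 1)) ≤ μ.real (GG k0 I i ∩ Cc i) := by
      refine measureReal_mono ?_
      rintro ω ⟨h4, h5⟩
      refine ⟨⟨fun j hj => h4 j ?_, hGhmono k0 i h5⟩, h4 i ?_⟩
      · rw [Finset.mem_Ico] at hj ⊢
        exact ⟨hj.1, by omega⟩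
      · rw [Finset.mem_Ico]
        exact ⟨hI, Nat.lt_succ_self i⟩
    have h4 : μ.real (GG k0 I i ∩ (eV A (J i) (lo (i + 1)) ∩ eG μ ℱ A (J i) q (lo (i + 1)))) ≤
        μ.real (GG k0 I i \ Cc i) := by
      refine measureReal_mono ?_
      rintro ω ⟨h5, h6, _⟩
      refine ⟨h5, fun h7 => ?_⟩
      obtain ⟨k, hk, h8⟩ := h7
      unfold eV at h6
      rw [hfil, Set.mem_iInter₂] at h6
      exact h6 k hk h8
    have h5 : μ.real (GG k0 I i \ eG μ ℱ A (J i) q (lo (i + 1))) ≤ μ.real (Gh k0 i) - μ.real (Gh k0 (i + 1)) := by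
      have h6 := measureReal_inter_add_sdiff (μ := μ) (s := Gh k0 i) (ℱ.le _ _ (hGhm k0 (i + 1)))
      rw [Set.inter_eq_self_of_subset_right (hGhmono k0 i)] at h6
      have h7 : μ.real (GG k0 I i \ eG μ ℱ A (J i) q (lo (i + 1))) ≤ μ.real (Gh k0 i \ Gh k0 (i + 1)) := by
        refine measureReal_mono ?_
        rintro ω ⟨h8, h9⟩
        refine ⟨h8.2, fun h10 => h9 ?_⟩
        unfold eG
        rw [hfil, Set.mem_iInter₂]
        intro k hk
        apply h10 k
        rw [Finset.mem_Ico]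
        exact ⟨hk0.trans ((hmono hI).trans (hJ i k hk).1), (hJ i k hk).2⟩
      linarith
    have e : (1 - π i) * μ.real (GG k0 I i) = μ.real (GG k0 I i) - π i * μ.real (GG k0 I i) := by ring
    rw [e]
    linarith
  -- the bound
  have hbound : ∀ k0 I n, k0 ≤ lo I → I ≤ n → μ.real (GG k0 I n) ≤
      Real.exp (-∑ i ∈ Finset.Ico I n, π i) + (μ.real (Gh k0 I) - μ.real (Gh k0 n)) := by
    intro k0 I n hk0 hn
    induction n, hn using Nat.le_induction with
    | base =>
      simp only [Finset.Ico_self, Finset.sum_empty, neg_zero, Real.exp_zero, sub_self, add_zero]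
      exact measureReal_le_one
    | succ n hn ih =>
      have h1 := hstep k0 I n hk0 hn
      rw [Finset.sum_Ico_succ_top hn, neg_add, Real.exp_add]
      have h2 : 1 - π n ≤ Real.exp (-π n) := by
        have := Real.add_one_le_exp (-π n)
        linarith
      have h3 : (1 - π n) * μ.real (GG k0 I n) ≤ (1 - π n) *
          (Real.exp (-∑ i ∈ Finset.Ico I n, π i) + (μ.real (Gh k0 I) - μ.real (Gh k0 n))) :=
        mul_le_mul_of_nonneg_left ih (by linarith [hπ1 n])
      have h4 : (1 - π n) * Real.exp (-∑ i ∈ Finset.Ico I n, π i) ≤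
          Real.exp (-∑ i ∈ Finset.Ico I n, π i) * Real.exp (-π n) := by
        rw [mul_comm]
        exact mul_le_mul_of_nonneg_left h2 (Real.exp_pos _).le
      have h5 : 0 ≤ μ.real (Gh k0 I) - μ.real (Gh k0 n) := by
        have hanti : Antitone (Gh k0) := antitone_nat_of_succ_le fun i => hGhmono k0 i
        have := measureReal_mono (μ := μ) (hanti hn)
        linarith
      have h6 : 0 ≤ π n * (μ.real (Gh k0 I) - μ.real (Gh k0 n)) := mul_nonneg (hπ0 n) h5
      nlinarith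
  -- the limit of the good events
  have hlim : ∀ k0, ∃ g : ℝ, Tendsto (fun i => μ.real (Gh k0 i)) atTop (𝓝 g) := by
    intro k0
    have hanti : Antitone (fun i => μ.real (Gh k0 i)) := by
      apply antitone_nat_of_succ_le
      intro i
      exact measureReal_mono (hGhmono k0 i)
    exact ⟨_, tendsto_atTop_ciInf hanti ⟨0, by rintro _ ⟨i, rfl⟩; exact measureReal_nonneg⟩⟩
  -- the null events
  set EE : ℕ → ℕ → Set Ω := fun k0 I => {ω | (∀ j, I ≤ j → ω ∈ Cc j) ∧ ∀ k, k0 ≤ k → dc μ ℱ A k ω ≤ q k} with hEE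
  have hnull : ∀ k0 I, μ (EE k0 I) = 0 := by
    intro k0 I
    obtain ⟨g, hg⟩ := hlim k0
    have h1 : ∀ I', k0 ≤ lo I' → I ≤ I' → μ.real (EE k0 I) ≤ μ.real (Gh k0 I') - g := by
      intro I' hI' hII
      have hS : Tendsto (fun n => ∑ i ∈ Finset.Ico I' n, π i) atTop atTop := by
        have h2 := tendsto_atTop_add_const_right atTop (-∑ i ∈ Finset.range I', π i) hsum
        refine h2.congr' ?_
        filter_upwards [eventually_ge_atTop I'] with n hn
        rw [Finset.sum_Ico_eq_sub _ hn]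
        ring
      have h3 : Tendsto (fun n => Real.exp (-∑ i ∈ Finset.Ico I' n, π i) + (μ.real (Gh k0 I') - μ.real (Gh k0 n)))
          atTop (𝓝 (0 + (μ.real (Gh k0 I') - g))) :=
        (Real.tendsto_exp_neg_atTop_nhds_zero.comp hS).add (hg.const_sub _)
      rw [zero_add] at h3
      refine ge_of_tendsto h3 ?_
      filter_upwards [eventually_ge_atTop I'] with n hn
      refine le_trans ?_ (hbound k0 I' n hI' hn)
      refine measureReal_mono ?_
      rintro ω ⟨h4, h5⟩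
      exact ⟨fun j hj => h4 j (hII.trans (Finset.mem_Ico.1 hj).1), fun k hk => h5 k (Finset.mem_Ico.1 hk).1⟩
    have h2 : Tendsto (fun I' => μ.real (Gh k0 I') - g) atTop (𝓝 0) := by
      have := hg.sub_const g
      rwa [sub_self] at this
    have h3 : μ.real (EE k0 I) ≤ 0 := by
      refine ge_of_tendsto h2 ?_
      filter_upwards [hlo.eventually_ge_atTop k0, eventually_ge_atTop I] with I' h4 h5
      exact h1 I' h4 h5
    have h4 : μ.real (EE k0 I) = 0 := le_antisymm h3 measureReal_nonneg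
    rwa [measureReal_eq_zero_iff] at h4
  have h1 : ∀ᵐ ω ∂μ, ∀ k0 I, ω ∉ EE k0 I := by
    rw [ae_all_iff]
    intro k0
    rw [ae_all_iff]
    intro I
    rw [ae_iff]
    simpa using hnull k0 I
  filter_upwards [h1, hgood] with ω hω hg
  obtain ⟨k0, hk0⟩ := eventually_atTop.1 hg
  rw [frequently_atTop]
  intro I
  by_contra hne
  push Not at hne
  exact hω k0 I ⟨fun j hj => hne j hj, hk0⟩

end Pool.Agent.U958.PL
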