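import Mathlib
import Pool.Agent.U958.PL.App
import Pool.Agent.U958.PL.Gap

set_option autoImplicit false

/-! # Largest gaps along exponential sequences in sequential random models (helper958) -/

open MeasureTheory Filter Topology

namespace Pool.Agent.U958.PL

open Pool.Agent.U958.SM Pool.Agent.U958.PF Pool.Agent.R528.RM

lemma bdd_of_tendsto (u : ℕ → ℝ) (a : ℝ) (h : Tendsto u atTop (𝓝 a)) : ∃ C : ℝ, ∀ n, |u n| ≤ C := by
  obtain ⟨C, hC⟩ := (Metric.isBounded_range_of_tendsto u h).exists_norm_le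
  exact ⟨C, fun n => hC _ ⟨n, rfl⟩⟩

/-- window sums, uniformly -/
lemma win_unif (q g : ℕ → ℝ) (T : ℕ) (hT : 0 < T) (hper : ∀ n, g (n + T) = g n) (K0 : ℝ)
    (hq : Tendsto (fun m : ℕ => q m * ((m : ℝ) + 1) - g m * K0) atTop (𝓝 0)) (ε : ℝ) (hε : 0 < ε) :
    ∃ (n0 : ℕ) (C : ℝ), 1 ≤ n0 ∧ 0 ≤ C ∧ ∀ x z : ℕ, n0 ≤ x → x ≤ z →
      |∑ m ∈ Finset.Ico x z, q m - K0 * ((∑ t ∈ Finset.range T, g t) / T) * (Real.log z - Real.log x)| ≤
        ε * (Real.log z - Real.log x) + C := by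
  have hT' : (0 : ℝ) < T := by exact_mod_cast hT
  obtain ⟨C1, hC1⟩ := bdd_of_tendsto _ _ Real.tendsto_harmonic_sub_log
  have h5 : ∀ x : ℕ, (harmonic x : ℝ) = ∑ n ∈ Finset.range x, 1 / ((n : ℝ) + 1) := by
    intro x
    unfold harmonic
    push_cast
    exact Finset.sum_congr rfl fun i _ => by rw [one_div]
  set m0 : ℝ := (∑ t ∈ Finset.range T, g t) / T with hm0
  obtain ⟨C2, hC2⟩ : ∃ C2 : ℝ, ∀ x : ℕ, |∑ n ∈ Finset.range x, (g n - m0) / ((n : ℝ) + 1)| ≤ C2 := by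
    set h : ℕ → ℝ := fun n => g n - m0 with hh
    have h0 : ∑ t ∈ Finset.range T, h t = 0 := by
      rw [hh, Finset.sum_sub_distrib, Finset.sum_const, Finset.card_range, nsmul_eq_mul, hm0]
      field_simp
      ring
    have hS : ∀ x, ∑ n ∈ Finset.range (x + T), h n = ∑ n ∈ Finset.range x, h n := by
      intro x
      induction x with
      | zero => simpa using h0
      | succ x ih =>
        rw [show x + 1 + T = (x + T) + 1 by ring, Finset.sum_range_succ, ih, Finset.sum_range_succ]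
        simp only [hh, hper]
    have hSm : ∀ x, ∑ n ∈ Finset.range x, h n = ∑ n ∈ Finset.range (x % T), h n := by
      intro x
      have hp : Function.Periodic (fun x => ∑ n ∈ Finset.range x, h n) T := hS
      exact (hp.map_mod_nat x).symm
    set bb : ℝ := ∑ t ∈ Finset.range T, |h t| with hbb
    have hbd : ∀ x, ‖∑ n ∈ Finset.range x, h n‖ ≤ bb := by
      intro x
      rw [hSm, Real.norm_eq_abs]
      refine (Finset.abs_sum_le_sum_abs _ _).trans ?_
      exact Finset.sum_le_sum_of_subset_of_nonneg (Finset.range_mono (Nat.mod_lt x hT).le)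
        fun _ _ _ => abs_nonneg _
    have ha' : Antitone (fun n : ℕ => 1 / ((n : ℝ) + 1)) := by
      intro m n hmn
      have : (m : ℝ) ≤ n := by exact_mod_cast hmn
      show 1 / ((n : ℝ) + 1) ≤ 1 / ((m : ℝ) + 1)
      gcongr
    have hc := ha'.cauchySeq_series_mul_of_tendsto_zero_of_bounded tendsto_one_div_add_atTop_nhds_zero_nat hbd
    obtain ⟨l', hl'⟩ := cauchySeq_tendsto_of_complete hc
    obtain ⟨C, hC⟩ := bdd_of_tendsto _ _ hl'
    refine ⟨C, fun x => ?_⟩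
    have e : ∑ n ∈ Finset.range x, (g n - m0) / ((n : ℝ) + 1) =
        ∑ i ∈ Finset.range x, (1 / ((i : ℝ) + 1)) • h i := by
      refine Finset.sum_congr rfl fun i _ => ?_
      rw [smul_eq_mul]
      ring
    rw [e]
    exact hC x
  obtain ⟨n1, hn1⟩ := (Metric.tendsto_atTop.1 hq) ε hε
  have hC10 : 0 ≤ C1 := (abs_nonneg _).trans (hC1 0)
  have hC20 : 0 ≤ C2 := (abs_nonneg _).trans (hC2 0)
  refine ⟨n1 + 1, ε * (2 * C1) + |K0| * (2 * C2) + |K0 * m0| * (2 * C1), by omega, by positivity,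
    fun x z hx hxz => ?_⟩
  have hx0 : (0 : ℝ) < x := by exact_mod_cast (by omega : 0 < x)
  have hlog : Real.log x ≤ Real.log z := Real.log_le_log hx0 (by exact_mod_cast hxz)
  -- harmonic part
  have hHw : |∑ m ∈ Finset.Ico x z, 1 / ((m : ℝ) + 1) - (Real.log z - Real.log x)| ≤ 2 * C1 := by
    rw [Finset.sum_Ico_eq_sub _ hxz, ← h5, ← h5]
    have e : (harmonic z : ℝ) - (harmonic x : ℝ) - (Real.log z - Real.log x) =
        ((harmonic z : ℝ) - Real.log z) - ((harmonic x : ℝ) - Real.log x) := by ring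
    rw [e]
    have h1 := hC1 z
    have h2 := hC1 x
    rw [abs_le] at h1 h2 ⊢
    constructor <;> linarith [h1.1, h1.2, h2.1, h2.2]
  have hLw : |∑ m ∈ Finset.Ico x z, (g m - m0) / ((m : ℝ) + 1)| ≤ 2 * C2 := by
    rw [Finset.sum_Ico_eq_sub _ hxz]
    have h1 := hC2 z
    have h2 := hC2 x
    rw [abs_le] at h1 h2 ⊢
    constructor <;> linarith [h1.1, h1.2, h2.1, h2.2]
  have hEw : |∑ m ∈ Finset.Ico x z, (q m * ((m : ℝ) + 1) - g m * K0) / ((m : ℝ) + 1)| ≤
      ε * (Real.log z - Real.log x) + ε * (2 * C1) := by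
    calc |∑ m ∈ Finset.Ico x z, (q m * ((m : ℝ) + 1) - g m * K0) / ((m : ℝ) + 1)|
        ≤ ∑ m ∈ Finset.Ico x z, |(q m * ((m : ℝ) + 1) - g m * K0) / ((m : ℝ) + 1)| :=
          Finset.abs_sum_le_sum_abs _ _
      _ ≤ ∑ m ∈ Finset.Ico x z, ε * (1 / ((m : ℝ) + 1)) := by
          apply Finset.sum_le_sum
          intro m hm
          have h4 := hn1 m (by have := (Finset.mem_Ico.1 hm).1; omega)
          rw [Real.dist_eq, sub_zero] at h4
          have h5 : (0 : ℝ) < (m : ℝ) + 1 := by positivity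
          rw [abs_div, abs_of_pos h5, mul_one_div]
          exact div_le_div_of_nonneg_right h4.le h5.le
      _ = ε * ∑ m ∈ Finset.Ico x z, 1 / ((m : ℝ) + 1) := by rw [Finset.mul_sum]
      _ ≤ ε * ((Real.log z - Real.log x) + 2 * C1) := by
          apply mul_le_mul_of_nonneg_left _ hε.le
          have := (abs_le.1 hHw).2
          linarith
      _ = _ := by ring
  have e : ∑ m ∈ Finset.Ico x z, q m - K0 * m0 * (Real.log z - Real.log x) =
      ∑ m ∈ Finset.Ico x z, (q m * ((m : ℝ) + 1) - g m * K0) / ((m : ℝ) + 1) +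
      K0 * (∑ m ∈ Finset.Ico x z, (g m - m0) / ((m : ℝ) + 1)) +
      K0 * m0 * (∑ m ∈ Finset.Ico x z, 1 / ((m : ℝ) + 1) - (Real.log z - Real.log x)) := by
    have e0 : ∑ m ∈ Finset.Ico x z, q m =
        ∑ m ∈ Finset.Ico x z, (q m * ((m : ℝ) + 1) - g m * K0) / ((m : ℝ) + 1) +
        K0 * (∑ m ∈ Finset.Ico x z, (g m - m0) / ((m : ℝ) + 1)) +
        K0 * m0 * (∑ m ∈ Finset.Ico x z, 1 / ((m : ℝ) + 1)) := by
      rw [Finset.mul_sum, Finset.mul_sum, ← Finset.sum_add_distrib, ← Finset.sum_add_distrib]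
      refine Finset.sum_congr rfl fun m _ => ?_
      have : (0 : ℝ) < (m : ℝ) + 1 := by positivity
      field_simp
      ring
    rw [e0]
    ring
  rw [e]
  refine (abs_add_three _ _ _).trans ?_
  rw [abs_mul, abs_mul]
  have h1 : |K0| * |∑ m ∈ Finset.Ico x z, (g m - m0) / ((m : ℝ) + 1)| ≤ |K0| * (2 * C2) :=
    mul_le_mul_of_nonneg_left hLw (abs_nonneg _)
  have h2 : |K0 * m0| * |∑ m ∈ Finset.Ico x z, 1 / ((m : ℝ) + 1) - (Real.log z - Real.log x)| ≤
      |K0 * m0| * (2 * C1) := mul_le_mul_of_nonneg_left hHw (abs_nonneg _)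
  linarith

variable {Ω : Type} {m0 : MeasurableSpace Ω} {μ : Measure Ω} [IsProbabilityMeasure μ]
  {ℱ : Filtration ℕ m0} {A : ℕ → Set Ω}

open Classical in
/-- the profile along an exponential sequence -/
lemma rho_along (Q : Finset ℕ) (hQ : ∀ p ∈ Q, p.Prime) (D : ℕ → ℕ) (hmono : StrictMono D) (c : ℝ) (hc : 0 < c)
    (hlog : Tendsto (fun n : ℕ => Real.log (D n) / n) atTop (𝓝 c)) :
    Tendsto (fun m : ℕ => rhoQ Q (D m) * ((m : ℝ) + 1) - (if Free Q (D m) then 1 else 0) * (WQ Q / c)) atTop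
      (𝓝 0) := by
  have hW := WQ_pos Q hQ
  set g : ℕ → ℝ := fun n => if Free Q (D n) then 1 else 0 with hg
  have hg01 : ∀ m, 0 ≤ g m ∧ g m ≤ 1 := by
    intro m
    simp only [hg]
    split_ifs <;> norm_num
  have hDtop : Tendsto D atTop atTop := hmono.tendsto_atTop
  have hlD : Tendsto (fun n => Real.log (D n)) atTop atTop := logN.comp hDtop
  have hr : ∀ᶠ n in atTop, rhoQ Q (D n) = g n * (WQ Q / Real.log (D n)) := by
    have h1 : ∀ᶠ n in atTop, WQ Q / Real.log (D n) < 1 :=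
      (hlD.const_div_atTop (WQ Q)).eventually (gt_mem_nhds one_pos)
    filter_upwards [h1] with n hn
    unfold rhoQ
    by_cases h : Free Q (D n)
    · rw [if_pos h, min_eq_right hn.le, hg]
      simp only [if_pos h, one_mul]
    · rw [if_neg h, hg]
      simp only [if_neg h, zero_mul]
  have hln : Tendsto (fun n : ℕ => ((n : ℝ) + 1) / Real.log (D n)) atTop (𝓝 (1 / c)) := by
    have h1 : Tendsto (fun n : ℕ => ((n : ℝ) + 1) / n) atTop (𝓝 1) := by
      have h2 := tendsto_one_div_atTop_nhds_zero_nat (𝕜 := ℝ)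
      have h3 := h2.const_add 1
      rw [add_zero] at h3
      refine h3.congr' ?_
      filter_upwards [eventually_gt_atTop 0] with n hn
      have : (0 : ℝ) < n := by exact_mod_cast hn
      field_simp
    have h2 := h1.div hlog hc.ne'
    refine h2.congr' ?_
    filter_upwards [eventually_gt_atTop 0] with n hn
    have : (0 : ℝ) < n := by exact_mod_cast hn
    show ((n : ℝ) + 1) / n / (Real.log (D n) / n) = _
    rw [div_div_div_cancel_right₀ this.ne']
  have h1 : Tendsto (fun n : ℕ => |WQ Q| * |((n : ℝ) + 1) / Real.log (D n) - 1 / c|) atTop (𝓝 0) := by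
    have h2 := (hln.sub_const (1 / c)).abs.const_mul |WQ Q|
    rw [sub_self, abs_zero, mul_zero] at h2
    exact h2
  refine squeeze_zero_norm' ?_ h1
  filter_upwards [hr] with n hn
  have e : rhoQ Q (D n) * ((n : ℝ) + 1) - g n * (WQ Q / c) =
      g n * (WQ Q * (((n : ℝ) + 1) / Real.log (D n) - 1 / c)) := by
    rw [hn]
    ring
  rw [Real.norm_eq_abs, e, abs_mul, abs_mul, abs_of_nonneg (hg01 n).1]
  exact mul_le_of_le_one_left (by positivity) (hg01 n).2

/-- sums and products over window sets -/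
lemma sum_Jw (D : ℕ → ℕ) (hmono : StrictMono D) (h1 : ∀ m, 1 ≤ D m) (a b : ℕ) (f : ℕ → ℝ) :
    ∑ k ∈ Jw D a b, f (k + 1) = ∑ m ∈ Finset.Ico a b, f (D m) := by
  unfold Jw
  rw [Finset.sum_image fun m _ n _ h => inj_pred D hmono h1 h]
  refine Finset.sum_congr rfl fun m _ => ?_
  rw [Nat.sub_add_cancel (h1 m)]

open Classical in
/-- **No large gaps.** -/
theorem gap_up (hA : ∀ n, MeasurableSet[ℱ n] (A n)) (Q : Finset ℕ) (hQ : ∀ p ∈ Q, p.Prime)
    (hcop : ∀ n, ¬ Free Q n → A n = ∅)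
    (hd : ∀ᵐ ω ∂μ, Tendsto (fun n : ℕ => dens μ ℱ A n ω * Real.log n)
      (atTop ⊓ 𝓟 {n : ℕ | Free Q (n + 1)}) (𝓝 (WQ Q)))
    (D : ℕ → ℕ) (hmono : StrictMono D) (h1 : ∀ m, 1 ≤ D m) (c : ℝ) (hc : 0 < c)
    (hlog : Tendsto (fun n : ℕ => Real.log (D n) / n) atTop (𝓝 c)) (T : ℕ) (hT : 0 < T)
    (hper : ∀ n, Free Q (D (n + T)) ↔ Free Q (D n)) (κ : ℝ) (hκ : 0 < κ)
    (hκe : κ = WQ Q / c * ((((Finset.range T).filter (fun t => Free Q (D t))).card : ℝ) / T))
    (a : ℝ) (ha : 0 < a) (haκ : 1 < κ * a) :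
    ∀ᵐ ω ∂μ, ∀ᶠ j : ℕ in atTop, ∃ m : ℕ, 2 ^ j ≤ m ∧ (m : ℝ) < (2 : ℝ) ^ j * (j : ℝ) ^ a ∧ ω ∈ A (D m) := by
  -- the parameter
  obtain ⟨ε, ⟨hε1, hε0, hε2⟩, hε3⟩ : ∃ ε : ℝ, (1 < (1 - ε) * (κ - ε) * a ∧ 0 < ε ∧ ε < 1) ∧ ε < κ := by
    have hcont : Tendsto (fun ε : ℝ => (1 - ε) * (κ - ε) * a) (𝓝[>] 0) (𝓝 ((1 - 0) * (κ - 0) * a)) :=
      ((Continuous.tendsto (by fun_prop) (0 : ℝ)).mono_left nhdsWithin_le_nhds)
    rw [sub_zero, sub_zero, one_mul] at hcont
    have h2 : ∀ᶠ ε : ℝ in 𝓝[>] 0, ε ∈ Set.Ioo (0 : ℝ) 1 := Ioo_mem_nhdsGT one_pos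
    have h3 : ∀ᶠ ε : ℝ in 𝓝[>] 0, ε ∈ Set.Ioo (0 : ℝ) κ := Ioo_mem_nhdsGT hκ
    obtain ⟨ε, h4, h5, h6⟩ := ((hcont.eventually (lt_mem_nhds haκ)).and (h2.and h3)).exists
    exact ⟨ε, ⟨h4, h5.1, h5.2⟩, h6.2⟩
  have hg := rho_along Q hQ D hmono c hc hlog
  obtain ⟨n0, C, hn0, hC0, hwin⟩ := win_unif (fun m => rhoQ Q (D m)) (fun m => if Free Q (D m) then 1 else 0) T hT
    (fun n => by simp only [hper]) (WQ Q / c) hg ε hε0
  rw [Finset.sum_boole, ← hκe] at hwin
  set z : ℕ → ℕ := fun j => ⌈(2 : ℝ) ^ j * (j : ℝ) ^ a⌉₊ with hz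
  have hDp : Tendsto (fun m => D m - 1) atTop atTop := (tendsto_sub_atTop_nat 1).comp hmono.tendsto_atTop
  have h2j : Tendsto (fun j : ℕ => 2 ^ j) atTop atTop := tendsto_pow_atTop_atTop_of_one_lt (by norm_num)
  have key := bc1 (μ := μ) hA (fun k => (1 - ε) * rhoQ Q (k + 1)) (fun k => by
      have := rhoQ_bounds Q hQ (k + 1)
      constructor
      · exact mul_nonneg (by linarith) this.1
      · nlinarith [this.1, this.2]) (fun j => Jw D (2 ^ j) (z j)) (fun j => D (2 ^ j) - 1) (hDp.comp h2j) ?_ ?_ ?_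
  · filter_upwards [key] with ω hω
    filter_upwards [hω] with j hj
    obtain ⟨k, hk, hk2⟩ := hj
    unfold Jw at hk
    obtain ⟨m, hm, rfl⟩ := Finset.mem_image.1 hk
    rw [Nat.sub_add_cancel (h1 m)] at hk2
    have hm' := Finset.mem_Ico.1 hm
    exact ⟨m, hm'.1, Nat.lt_ceil.1 hm'.2, hk2⟩
  · intro j k hk
    unfold Jw at hk
    obtain ⟨m, hm, rfl⟩ := Finset.mem_image.1 hk
    have := hmono.monotone (Finset.mem_Ico.1 hm).1
    omega
  · have hp : Summable (fun j : ℕ => (j : ℝ) ^ (-((1 - ε) * (κ - ε) * a))) :=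
      Real.summable_nat_rpow.2 (by linarith)
    refine summable_of_isBigO_nat hp ?_
    refine Asymptotics.IsBigO.of_bound (Real.exp ((1 - ε) * C)) ?_
    filter_upwards [h2j.eventually_ge_atTop n0, eventually_ge_atTop 1] with j hj hj1
    have hj' : (1 : ℝ) ≤ j := by exact_mod_cast hj1
    have hja : (1 : ℝ) ≤ (j : ℝ) ^ a := Real.one_le_rpow hj' ha.le
    have h2pos : (0 : ℝ) < (2 : ℝ) ^ j := by positivity
    have hzge : (2 : ℝ) ^ j * (j : ℝ) ^ a ≤ z j := Nat.le_ceil _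
    have hle : 2 ^ j ≤ z j := by
      have : ((2 ^ j : ℕ) : ℝ) ≤ z j := by
        push_cast
        nlinarith
      exact_mod_cast this
    have h3 := hwin (2 ^ j) (z j) hj hle
    have h4 : a * Real.log j ≤ Real.log (z j) - Real.log ((2 ^ j : ℕ) : ℝ) := by
      have h5 := Real.log_le_log (by positivity) hzge
      rw [Real.log_mul h2pos.ne' (by positivity), Real.log_rpow (by linarith)] at h5
      push_cast
      linarith
    have hsumr : ∑ k ∈ Jw D (2 ^ j) (z j), (1 - ε) * rhoQ Q (k + 1) =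
        (1 - ε) * ∑ m ∈ Finset.Ico (2 ^ j) (z j), rhoQ Q (D m) := by
      rw [← Finset.mul_sum, sum_Jw D hmono h1]
    rw [Real.norm_of_nonneg (Real.exp_pos _).le, Real.norm_of_nonneg (by positivity), hsumr]
    rw [Real.rpow_def_of_pos (by linarith), ← Real.exp_add]
    apply Real.exp_le_exp.2
    have h6 := (abs_le.1 h3).1
    have h7 : (κ - ε) * (Real.log (z j) - Real.log ((2 ^ j : ℕ) : ℝ)) - C ≤
        ∑ m ∈ Finset.Ico (2 ^ j) (z j), rhoQ Q (D m) := by linarith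
    have h8 : (κ - ε) * (a * Real.log j) - C ≤ ∑ m ∈ Finset.Ico (2 ^ j) (z j), rhoQ Q (D m) := by
      have := mul_le_mul_of_nonneg_left h4 (show 0 ≤ κ - ε by linarith)
      linarith
    have h9 := mul_le_mul_of_nonneg_left h8 (show 0 ≤ 1 - ε by linarith)
    nlinarith
  · filter_upwards [profileQ Q hQ hcop hd, ae_all_iff.2 fun n => dc_eq (μ := μ) hA n] with ω hω hω2
    filter_upwards [hω ε hε0] with k hk
    rw [hω2 k]
    have := (abs_le.1 hk).1
    linarith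

open Classical in
/-- **Large gaps.** -/
theorem gap_low (hA : ∀ n, MeasurableSet[ℱ n] (A n)) (Q : Finset ℕ) (hQ : ∀ p ∈ Q, p.Prime)
    (hcop : ∀ n, ¬ Free Q n → A n = ∅)
    (hd : ∀ᵐ ω ∂μ, Tendsto (fun n : ℕ => dens μ ℱ A n ω * Real.log n)
      (atTop ⊓ 𝓟 {n : ℕ | Free Q (n + 1)}) (𝓝 (WQ Q)))
    (D : ℕ → ℕ) (hmono : StrictMono D) (h1 : ∀ m, 1 ≤ D m) (c : ℝ) (hc : 0 < c)
    (hlog : Tendsto (fun n : ℕ => Real.log (D n) / n) atTop (𝓝 c)) (T : ℕ) (hT : 0 < T)
    (hper : ∀ n, Free Q (D (n + T)) ↔ Free Q (D n)) (κ : ℝ) (hκ : 0 < κ)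
    (hκe : κ = WQ Q / c * ((((Finset.range T).filter (fun t => Free Q (D t))).card : ℝ) / T))
    (a : ℝ) (ha : 0 < a) (haκ : κ * a < 1) :
    ∀ᵐ ω ∂μ, ∃ᶠ x : ℕ in atTop, ∀ m : ℕ, x ≤ m → (m : ℝ) < (x : ℝ) * (Real.log x) ^ a → ω ∉ A (D m) := by
  -- the parameter
  obtain ⟨ε, hε1, hε0, hε2⟩ : ∃ ε : ℝ, (1 + ε) / (1 - ε) * ((κ + ε) * ((1 + ε) * a)) < 1 ∧ 0 < ε ∧ ε < 1 := by
    have hcont : Tendsto (fun ε : ℝ => (1 + ε) / (1 - ε) * ((κ + ε) * ((1 + ε) * a))) (𝓝[>] 0)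
        (𝓝 ((1 + 0) / (1 - 0) * ((κ + 0) * ((1 + 0) * a)))) := by
      have h2 : ContinuousAt (fun ε : ℝ => (1 + ε) / (1 - ε) * ((κ + ε) * ((1 + ε) * a))) 0 := by
        apply ContinuousAt.mul
        · exact ContinuousAt.div (by fun_prop) (by fun_prop) (by norm_num)
        · fun_prop
      exact h2.tendsto.mono_left nhdsWithin_le_nhds
    simp only [add_zero, sub_zero, div_one, one_mul] at hcont
    have h2 : ∀ᶠ ε : ℝ in 𝓝[>] 0, ε ∈ Set.Ioo (0 : ℝ) 1 := Ioo_mem_nhdsGT one_pos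
    obtain ⟨ε, h4, h5⟩ := ((hcont.eventually (gt_mem_nhds haκ)).and h2).exists
    exact ⟨ε, h4, h5.1, h5.2⟩
  have hg := rho_along Q hQ D hmono c hc hlog
  obtain ⟨n0, C, hn0, hC0, hwin⟩ := win_unif (fun m => rhoQ Q (D m)) (fun m => if Free Q (D m) then 1 else 0) T hT
    (fun n => by simp only [hper]) (WQ Q / c) hg ε hε0
  rw [Finset.sum_boole, ← hκe] at hwin
  -- the windows
  set y : ℕ → ℕ := fun i => ⌈Real.exp ((i : ℝ) ^ (1 + ε))⌉₊ with hy
  set w : ℕ → ℕ := fun i => ⌈(y i : ℝ) * ((2 : ℝ) ^ a * (i : ℝ) ^ ((1 + ε) * a))⌉₊ with hw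
  have hymono : Monotone y := by
    intro i j hij
    apply Nat.ceil_mono
    apply Real.exp_le_exp.2
    apply Real.rpow_le_rpow (by positivity) (by exact_mod_cast hij) (by linarith)
  have hti : Tendsto (fun i : ℕ => (i : ℝ) ^ (1 + ε)) atTop atTop :=
    (tendsto_rpow_atTop (by linarith)).comp tendsto_natCast_atTop_atTop
  have hytop : Tendsto y atTop atTop := by
    apply tendsto_nat_ceil_atTop.comp
    exact Real.tendsto_exp_atTop.comp hti
  have hyge : ∀ i : ℕ, Real.exp ((i : ℝ) ^ (1 + ε)) ≤ y i := fun i => Nat.le_ceil _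
  have hyle : ∀ i : ℕ, (y i : ℝ) ≤ 2 * Real.exp ((i : ℝ) ^ (1 + ε)) := by
    intro i
    have h2 : (1 : ℝ) ≤ Real.exp ((i : ℝ) ^ (1 + ε)) := Real.one_le_exp (by positivity)
    have h3 := Nat.ceil_lt_add_one (show 0 ≤ Real.exp ((i : ℝ) ^ (1 + ε)) by positivity)
    have h4 : (y i : ℝ) = ((⌈Real.exp ((i : ℝ) ^ (1 + ε))⌉₊ : ℕ) : ℝ) := rfl
    rw [h4]
    linarith
  -- the windows are eventually disjoint
  have hdisj : ∀ᶠ i : ℕ in atTop, w i ≤ y (i + 1) := by
    have h2 := tendsto_rpow_mul_exp_neg_mul_atTop_nhds_zero ((1 + ε) * a / ε) 1 one_pos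
    have hui : Tendsto (fun i : ℕ => (i : ℝ) ^ ε) atTop atTop :=
      (tendsto_rpow_atTop hε0).comp tendsto_natCast_atTop_atTop
    have h3 := (h2.comp hui).eventually (gt_mem_nhds (show (0 : ℝ) < 1 / (2 * 2 ^ a) by positivity))
    filter_upwards [h3, eventually_ge_atTop 1] with i hi hi1
    have hi' : (1 : ℝ) ≤ i := by exact_mod_cast hi1
    simp only [Function.comp] at hi
    rw [← Real.rpow_mul (by linarith), mul_div_cancel₀ _ hε0.ne', neg_one_mul, Real.exp_neg,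
      ← div_eq_mul_inv, div_lt_div_iff₀ (Real.exp_pos _) (by positivity), one_mul] at hi
    have h4 : (i : ℝ) ^ (1 + ε) + (i : ℝ) ^ ε ≤ (((i + 1 : ℕ) : ℝ)) ^ (1 + ε) := by
      push_cast
      have h5 : ((i : ℝ) + 1) ^ (1 + ε) = ((i : ℝ) + 1) * ((i : ℝ) + 1) ^ ε := by
        rw [Real.rpow_add (by linarith), Real.rpow_one]
      have h6 : (i : ℝ) ^ (1 + ε) = (i : ℝ) * (i : ℝ) ^ ε := by
        rw [Real.rpow_add (by linarith), Real.rpow_one]
      have h7 : (i : ℝ) ^ ε ≤ ((i : ℝ) + 1) ^ ε := Real.rpow_le_rpow (by linarith) (by linarith) hε0.le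
      have h8 : 0 < (i : ℝ) ^ ε := by positivity
      rw [h5, h6]
      nlinarith
    show ⌈(y i : ℝ) * ((2 : ℝ) ^ a * (i : ℝ) ^ ((1 + ε) * a))⌉₊ ≤ ⌈Real.exp ((((i + 1 : ℕ) : ℝ)) ^ (1 + ε))⌉₊
    apply Nat.ceil_mono
    calc (y i : ℝ) * ((2 : ℝ) ^ a * (i : ℝ) ^ ((1 + ε) * a))
        ≤ (2 * Real.exp ((i : ℝ) ^ (1 + ε))) * ((2 : ℝ) ^ a * (i : ℝ) ^ ((1 + ε) * a)) :=
          mul_le_mul_of_nonneg_right (hyle i) (by positivity)
      _ = Real.exp ((i : ℝ) ^ (1 + ε)) * ((i : ℝ) ^ ((1 + ε) * a) * (2 * 2 ^ a)) := by ring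
      _ ≤ Real.exp ((i : ℝ) ^ (1 + ε)) * Real.exp ((i : ℝ) ^ ε) :=
          mul_le_mul_of_nonneg_left hi.le (Real.exp_pos _).le
      _ = Real.exp ((i : ℝ) ^ (1 + ε) + (i : ℝ) ^ ε) := by rw [Real.exp_add]
      _ ≤ _ := Real.exp_le_exp.2 h4
  have hDp : Tendsto (fun m => D m - 1) atTop atTop := (tendsto_sub_atTop_nat 1).comp hmono.tendsto_atTop
  set q : ℕ → ℝ := fun k => min 1 ((1 + ε) * rhoQ Q (k + 1)) with hq
  have hρ0 := rhoQ_zero Q hQ
  have hρb := rhoQ_bounds Q hQ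
  have key := bc2 (μ := μ) hA q (fun k => ⟨le_min zero_le_one (mul_nonneg (by linarith) (hρb _).1), min_le_left _ _⟩)
    (fun i => Jw D (y i) (min (w i) (y (i + 1)))) (fun i => D (y i) - 1)
    (fun i j hij => Nat.sub_le_sub_right (hmono.monotone (hymono hij)) 1) (hDp.comp hytop) ?_ ?_ ?_
  · filter_upwards [key] with ω hω
    have h2 := hω.and_eventually (hdisj.and ((hytop.eventually_ge_atTop 2).and (eventually_ge_atTop 1)))
    have h3 : ∃ᶠ i in atTop, ∀ m : ℕ, y i ≤ m → (m : ℝ) < (y i : ℝ) * (Real.log (y i)) ^ a → ω ∉ A (D m) := by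
      refine h2.mono ?_
      rintro i ⟨h4, h5, h6, h7⟩ m hm hm2 hmem
      have hi' : (1 : ℝ) ≤ i := by exact_mod_cast h7
      have hy0 : (0 : ℝ) < y i := by exact_mod_cast (by omega : 0 < y i)
      have hly : 0 ≤ Real.log (y i) := Real.log_natCast_nonneg _
      have h8 : Real.log (y i) ≤ 2 * (i : ℝ) ^ (1 + ε) := by
        have h9 := Real.log_le_log hy0 (hyle i)
        rw [Real.log_mul (by norm_num) (Real.exp_pos _).ne', Real.log_exp] at h9
        have h10 : Real.log 2 ≤ 1 := by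
          have := Real.log_two_lt_d9
          linarith
        have h11 : (1 : ℝ) ≤ (i : ℝ) ^ (1 + ε) := Real.one_le_rpow hi' (by linarith)
        linarith
      have h9 : (Real.log (y i)) ^ a ≤ (2 : ℝ) ^ a * (i : ℝ) ^ ((1 + ε) * a) := by
        rw [Real.rpow_mul (by linarith), ← Real.mul_rpow (by norm_num) (by positivity)]
        exact Real.rpow_le_rpow hly h8 ha.le
      have h10 : m < w i := by
        apply Nat.lt_ceil.2
        refine hm2.trans_le ?_
        exact mul_le_mul_of_nonneg_left h9 hy0.le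
      refine h4 (D m - 1) ?_ (by rw [Nat.sub_add_cancel (h1 m)]; exact hmem)
      unfold Jw
      refine Finset.mem_image.2 ⟨m, Finset.mem_Ico.2 ⟨hm, ?_⟩, rfl⟩
      rw [min_eq_left h5]
      exact h10
    exact hytop.frequently h3
  · intro i k hk
    unfold Jw at hk
    obtain ⟨m, hm, rfl⟩ := Finset.mem_image.1 hk
    have hm' := Finset.mem_Ico.1 hm
    have h2 := hmono.monotone hm'.1
    have h3 := hmono (hm'.2.trans_le (min_le_right _ _))
    have h4 := h1 m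
    constructor
    · exact Nat.sub_le_sub_right h2 1
    · show D m - 1 < D (y (i + 1)) - 1
      omega
  · -- divergence
    set π : ℕ → ℝ := fun i => ∏ k ∈ Jw D (y i) (min (w i) (y (i + 1))), (1 - q k) with hπ
    have hπ0 : ∀ i, 0 ≤ π i := fun i => Finset.prod_nonneg fun k _ => by
      have := min_le_left 1 ((1 + ε) * rhoQ Q (k + 1))
      simp only [hq]
      linarith
    refine (not_summable_iff_tendsto_nat_atTop_of_nonneg hπ0).1 fun hsum => ?_
    set E0 : ℝ := (1 + ε) / (1 - ε) * ((κ + ε) * (Real.log 2 + a * Real.log 2) + C) with hE0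
    have hlow : ∀ᶠ i : ℕ in atTop, Real.exp (-E0) * ((i : ℝ))⁻¹ ≤ π i := by
      have hsm : ∀ᶠ k : ℕ in atTop, (1 + ε) * rhoQ Q (k + 1) ≤ ε := by
        have h2 := hρ0.const_mul (1 + ε)
        rw [mul_zero] at h2
        filter_upwards [h2.eventually (gt_mem_nhds hε0)] with k hk
        exact hk.le
      obtain ⟨k1, hk1⟩ := eventually_atTop.1 hsm
      filter_upwards [hdisj, hytop.eventually_ge_atTop n0, eventually_ge_atTop 1,
        (hDp.comp hytop).eventually_ge_atTop k1] with i h2 h3 h4 h5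
      simp only [Function.comp] at h5
      have hi' : (1 : ℝ) ≤ i := by exact_mod_cast h4
      have hy0 : (0 : ℝ) < y i := by exact_mod_cast (by omega : 0 < y i)
      have hy1 : (1 : ℝ) ≤ y i := by exact_mod_cast (by omega : 1 ≤ y i)
      have h2a : (1 : ℝ) ≤ (2 : ℝ) ^ a := Real.one_le_rpow (by norm_num) ha.le
      have hia : (1 : ℝ) ≤ (i : ℝ) ^ ((1 + ε) * a) := Real.one_le_rpow hi' (by positivity)
      have hprod : (1 : ℝ) ≤ (2 : ℝ) ^ a * (i : ℝ) ^ ((1 + ε) * a) := by nlinarith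
      have hwge : (y i : ℝ) * ((2 : ℝ) ^ a * (i : ℝ) ^ ((1 + ε) * a)) ≤ w i := Nat.le_ceil _
      have hyw : y i ≤ w i := by
        have : (y i : ℝ) ≤ w i := by nlinarith
        exact_mod_cast this
      have hwle : (w i : ℝ) ≤ 2 * ((y i : ℝ) * ((2 : ℝ) ^ a * (i : ℝ) ^ ((1 + ε) * a))) := by
        have h6 := Nat.ceil_lt_add_one
          (show 0 ≤ (y i : ℝ) * ((2 : ℝ) ^ a * (i : ℝ) ^ ((1 + ε) * a)) by positivity)
        have h7 : (w i : ℝ) = ((⌈(y i : ℝ) * ((2 : ℝ) ^ a * (i : ℝ) ^ ((1 + ε) * a))⌉₊ : ℕ) : ℝ) := rfl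
        rw [h7]
        nlinarith
      have hlogw : Real.log (w i) - Real.log (y i) ≤ (Real.log 2 + a * Real.log 2) + (1 + ε) * a * Real.log i := by
        have hw0 : (0 : ℝ) < w i := by
          have : (y i : ℝ) ≤ w i := by exact_mod_cast hyw
          linarith
        have h6 := Real.log_le_log hw0 hwle
        rw [Real.log_mul (by norm_num) (by positivity), Real.log_mul hy0.ne' (by positivity),
          Real.log_mul (by positivity) (by positivity), Real.log_rpow (by norm_num),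
          Real.log_rpow (by linarith)] at h6
        linarith
      have h6 := hwin (y i) (w i) h3 hyw
      have h7 : ∑ m ∈ Finset.Ico (y i) (w i), rhoQ Q (D m) ≤
          (κ + ε) * ((Real.log 2 + a * Real.log 2) + (1 + ε) * a * Real.log i) + C := by
        have h8 := (abs_le.1 h6).2
        have h9 := mul_le_mul_of_nonneg_left hlogw (show 0 ≤ κ + ε by linarith)
        linarith
      -- the product
      have h8 : Real.exp (-((1 + ε) / (1 - ε) * ∑ m ∈ Finset.Ico (y i) (w i), rhoQ Q (D m))) ≤ π i := by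
        rw [hπ]
        simp only
        rw [min_eq_left h2]
        have e : (1 + ε) / (1 - ε) * ∑ m ∈ Finset.Ico (y i) (w i), rhoQ Q (D m) =
            ∑ k ∈ Jw D (y i) (w i), ((1 + ε) * rhoQ Q (k + 1)) / (1 - ε) := by
          rw [← sum_Jw D hmono h1, Finset.mul_sum]
          refine Finset.sum_congr rfl fun k _ => ?_
          ring
        rw [e, ← Finset.sum_neg_distrib, Real.exp_sum]
        apply Finset.prod_le_prod (fun _ _ => (Real.exp_pos _).le)
        intro k hk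
        have hk' : (1 + ε) * rhoQ Q (k + 1) ≤ ε := by
          apply hk1 k
          unfold Jw at hk
          obtain ⟨m, hm, rfl⟩ := Finset.mem_image.1 hk
          have := hmono.monotone (Finset.mem_Ico.1 hm).1
          omega
        have h9 := exp_low ((1 + ε) * rhoQ Q (k + 1)) ε (mul_nonneg (by linarith) (hρb _).1) hk' hε2
        refine h9.trans ?_
        have := min_le_right 1 ((1 + ε) * rhoQ Q (k + 1))
        simp only [hq]
        linarith
      refine le_trans ?_ h8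
      have h9 : Real.exp (-E0) * ((i : ℝ))⁻¹ = Real.exp (-E0 - Real.log i) := by
        rw [Real.exp_sub, Real.exp_log (by linarith), div_eq_mul_inv]
      rw [h9]
      apply Real.exp_le_exp.2
      have hfac : 0 ≤ (1 + ε) / (1 - ε) := div_nonneg (by linarith) (by linarith)
      have h10 := mul_le_mul_of_nonneg_left h7 hfac
      have hli : 0 ≤ Real.log i := Real.log_nonneg hi'
      have h11 : (1 + ε) / (1 - ε) * ((κ + ε) * ((Real.log 2 + a * Real.log 2) + (1 + ε) * a * Real.log i) + C) =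
          E0 + (1 + ε) / (1 - ε) * ((κ + ε) * ((1 + ε) * a)) * Real.log i := by
        rw [hE0]; ring
      have h12 : (1 + ε) / (1 - ε) * ((κ + ε) * ((1 + ε) * a)) * Real.log i ≤ 1 * Real.log i :=
        mul_le_mul_of_nonneg_right hε1.le hli
      linarith
    have h2 : Summable (fun i : ℕ => Real.exp (-E0) * ((i : ℝ))⁻¹) := by
      refine summable_of_isBigO_nat hsum (Asymptotics.IsBigO.of_bound 1 ?_)
      filter_upwards [hlow] with i hi
      rw [one_mul, Real.norm_of_nonneg (by positivity), Real.norm_of_nonneg (hπ0 i)]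
      exact hi
    have h3 := h2.mul_left (Real.exp E0)
    have h4 : (fun i : ℕ => Real.exp E0 * (Real.exp (-E0) * ((i : ℝ))⁻¹)) = fun i : ℕ => ((i : ℝ))⁻¹ := by
      funext i
      rw [← mul_assoc, ← Real.exp_add, add_neg_cancel, Real.exp_zero, one_mul]
    rw [h4] at h3
    exact Real.not_summable_natCast_inv h3
  · filter_upwards [profileQ Q hQ hcop hd, ae_all_iff.2 fun n => dc_eq (μ := μ) hA n] with ω hω hω2
    filter_upwards [hω ε hε0] with k hk
    have h2 := (abs_le.1 hk).2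
    simp only [hq]
    refine le_min (dc_le k ω) ?_
    rw [hω2 k]
    linarith

end Pool.Agent.U958.PL
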